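import Pool.Agent.H.MP_0e620a_ag.Elim

/-!
# Assembling primality
-/

open Set MvPolynomial RingTheory.Sequence

namespace Pool.Agent.H.MP_0e620a_ag

universe u v w

section

variable {K : Type v} [Field K]

/-- linearly independent rows have a nonvanishing maximal minor -/
lemma exists_minor {j d : ℕ} (Y : Fin j → Fin d → K) (hY : LinearIndependent K Y) :
    ∃ J : Fin j → Fin d, Function.Injective J ∧
      (Matrix.of (fun s t => Y s (J t)) : Matrix (Fin j) (Fin j) K).det ≠ 0 := by
  classical
  obtain ⟨κ, hκ, α, C, hα, -, -, hYC, -, hrank⟩ := echelon Y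
  rw [finrank_span_eq_card hY, Fintype.card_fin] at hrank
  let e : Fin j ≃ κ := Fintype.equivOfCardEq (by rw [Fintype.card_fin, hrank])
  refine ⟨fun t => α (e t), hα.comp e.injective, ?_⟩
  have hli : LinearIndependent K (Matrix.of (fun s t => Y s (α (e t))) :
      Matrix (Fin j) (Fin j) K).row := by
    rw [Fintype.linearIndependent_iff] at hY ⊢
    intro g hg
    apply hY g
    funext l
    simp only [Finset.sum_apply, Pi.smul_apply, smul_eq_mul, Pi.zero_apply]
    have h1 : ∀ i, ∑ s, g s * Y s (α i) = 0 := by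
      intro i
      have h2 := congrFun hg (e.symm i)
      simp only [Finset.sum_apply, Pi.smul_apply, smul_eq_mul, Matrix.row, Matrix.of_apply,
        Equiv.apply_symm_apply, Pi.zero_apply] at h2
      exact h2
    calc ∑ s, g s * Y s l = ∑ s, g s * ∑ i, C i l * Y s (α i) :=
          Finset.sum_congr rfl fun s _ => by rw [← hYC]
      _ = ∑ i, C i l * ∑ s, g s * Y s (α i) := by
          simp only [Finset.mul_sum]
          rw [Finset.sum_comm]
          exact Finset.sum_congr rfl fun i _ => Finset.sum_congr rfl fun s _ => by ring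
      _ = 0 := by simp [h1]
  rw [Matrix.linearIndependent_rows_iff_isUnit, Matrix.isUnit_iff_isUnit_det] at hli
  exact hli.ne_zero

end

/-- the numerical condition -/
def Good (n d : ℕ) : Prop := ∀ a r m, 1 ≤ m → a + r + m + 1 ≤ n → a + 2 * r ≤ d →
  m * (m + 1) + 2 ≤ 2 * m * (d - a - 2 * r) + 2 * r

section

variable {k : Type u} [Field k] {n : ℕ} {d : ℕ}

lemma num_aux {n d j i a r m ρ ρ' b : ℕ} (hgood : Good n d) (hj : j < n)
    (h1 : a + r + m = j) (h2 : a + 2 * r ≤ d)
    (h3 : 2 * ρ + r * (r + 1) + 2 * r * r + 2 * a * r + a * a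
        = 2 * r * d + 2 * a * d + a + 2 * (r + m) * r)
    (h4 : ρ' + i ≤ ρ + d + m) (h5 : b ≤ ρ' + (n - j - 1) * d) :
    2 * b + j * j + 2 * i ≤ 2 * n * d + j ∧
      (1 ≤ m → 2 * b + j * j + 2 * i + 2 ≤ 2 * n * d + j) := by
  obtain ⟨u, rfl⟩ : ∃ u, d = a + 2 * r + u := ⟨d - (a + 2 * r), by omega⟩
  obtain ⟨e, rfl⟩ : ∃ e, n = j + 1 + e := ⟨n - j - 1, by omega⟩
  have e1 : j + 1 + e - j - 1 = e := by omega
  rw [e1] at h5
  subst h1
  by_cases hm : m = 0
  · subst hm
    refine ⟨by nlinarith, by omega⟩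
  · have hg := hgood a r m (by omega) (by omega) h2
    have e2 : a + 2 * r + u - a - 2 * r = u := by omega
    rw [e2] at hg
    refine ⟨by nlinarith, fun _ => by nlinarith⟩

/-- The key bound. -/
lemma key_bound (hgood : Good n d) {j : ℕ} (hjn : j < n) (i : ℕ) (hij : i ≤ j)
    (q : Ideal (MvPolynomial (Fin n × Fin d) k)) (hq : q.IsPrime)
    (hq1 : ∀ s t : Fin n, s ≠ t → (s : ℕ) < j → (t : ℕ) < j → edgePoly k d s t ∈ q)
    (hq2 : ∀ s : Fin n, (s : ℕ) < i → edgePoly k d ⟨j, hjn⟩ s ∈ q)
    (B : Set (Fin n × Fin d))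
    (hB : AlgebraicIndepOn k (fun p => Ideal.Quotient.mk q (X p)) B) :
    2 * B.ncard + j * j + 2 * i ≤ 2 * n * d + j ∧
      ((∃ J : Fin j → Fin d, Function.Injective J ∧ (minorMat k d hjn.le J).det ∉ q) ∨
        2 * B.ncard + j * j + 2 * i + 2 ≤ 2 * n * d + j) := by
  classical
  let S := MvPolynomial (Fin n × Fin d) k
  let K := FractionRing (S ⧸ q)
  let φ : S →ₐ[k] K := (IsScalarTower.toAlgHom k (S ⧸ q) K).comp (Ideal.Quotient.mkₐ k q)
  have hφker : ∀ f, φ f = 0 ↔ f ∈ q := by
    intro f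
    change algebraMap (S ⧸ q) K (Ideal.Quotient.mk q f) = 0 ↔ _
    rw [IsFractionRing.to_map_eq_zero_iff, Ideal.Quotient.eq_zero_iff_mem]
  let y : Fin n → Fin d → K := fun s l => φ (X (s, l))
  let Y : Fin j → Fin d → K := fun s => y (Fin.castLE hjn.le s)
  have hφe : ∀ s t, φ (edgePoly k d s t) = ∑ l, y s l * y t l := by
    intro s t
    simp [edgePoly, y]
  have horth : ∀ s t, s ≠ t → ∑ l, Y s l * Y t l = 0 := by
    intro s t hst
    have h1 := hq1 (Fin.castLE hjn.le s) (Fin.castLE hjn.le t)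
      (fun h => hst (Fin.castLE_injective _ h)) (by simp) (by simp)
    rw [← hφker, hφe] at h1
    exact h1
  obtain ⟨a, r, m, ρ, h1, h2, h3, h4, h5⟩ := rank_bound k Y horth
  obtain ⟨ρ', hρ', hρ'2⟩ := rk_add_row k Y i hij m (by omega) (y ⟨j, hjn⟩) (by
    intro s hs
    have h6 := hq2 (Fin.castLE hjn.le s) (by simpa using hs)
    rw [edgePoly_comm, ← hφker, hφe] at h6
    exact h6) ρ h4
  -- all entries
  let Rest : Set K := range (fun p : {s : Fin n // j < (s : ℕ)} × Fin d => y p.1 p.2)
  have hRest : Rest.encard ≤ (((n - j - 1) * d : ℕ) : ℕ∞) := by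
    have h7 : Fintype.card {s : Fin n // j < (s : ℕ)} = n - j - 1 := by
      rw [Fintype.card_subtype]
      have : (Finset.univ.filter fun s : Fin n => j < (s : ℕ)) =
          Finset.univ.filter fun s : Fin n => ¬ ((s : ℕ) < j + 1) := by
        ext s
        simp only [Finset.mem_filter, Finset.mem_univ, true_and]
        omega
      rw [this, Finset.filter_not, Finset.card_sdiff_of_subset (Finset.filter_subset _ _),
        Fin.card_filter_val_lt, Finset.card_univ, Fintype.card_fin]
      omega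
    have h8 : (((n - j - 1) * d : ℕ) : ℕ∞) =
        (Fintype.card ({s : Fin n // j < (s : ℕ)} × Fin d) : ℕ∞) := by
      rw [Fintype.card_prod, h7, Fintype.card_fin]
    rw [h8, ← ENat.card_eq_coe_fintype_card, ← Set.encard_univ]
    have : Rest = (fun p : {s : Fin n // j < (s : ℕ)} × Fin d => y p.1 p.2) '' univ :=
      image_univ.symm
    rw [this]
    exact Set.encard_image_le _ _
  let v : Fin n × Fin d → K := fun p => φ (X p)
  have hBK : AlgebraicIndependent k (fun b : B => v b) := by
    have h9 := hB.map' (f := IsScalarTower.toAlgHom k (S ⧸ q) K)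
      (IsFractionRing.injective (S ⧸ q) K)
    exact h9
  have hBind : (AlgebraicIndependent.matroid k K).Indep (range (fun b : B => v b)) := by
    rw [AlgebraicIndependent.matroid_indep_iff]
    exact (algebraicIndependent_subtype_range hBK.injective).2 hBK
  have hBcard : (range (fun b : B => v b)).encard = B.encard := by
    rw [← image_univ, hBK.injective.encard_image, encard_univ]
    rfl
  have hBsub : range (fun b : B => v b) ⊆ ((⋃ i, range (Y i)) ∪ range (y ⟨j, hjn⟩)) ∪ Rest := by
    rintro _ ⟨⟨⟨s, l⟩, hb⟩, rfl⟩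
    rcases lt_trichotomy (s : ℕ) j with h | h | h
    · refine Or.inl (Or.inl ?_)
      simp only [mem_iUnion, mem_range]
      exact ⟨⟨s, h⟩, l, rfl⟩
    · refine Or.inl (Or.inr ⟨l, ?_⟩)
      have : s = ⟨j, hjn⟩ := Fin.ext h
      change y ⟨j, hjn⟩ l = y s l
      rw [this]
    · exact Or.inr ⟨(⟨s, h⟩, l), rfl⟩
  have hBle : B.encard ≤ ((ρ' + (n - j - 1) * d : ℕ) : ℕ∞) := by
    rw [← hBcard]
    refine (hBind.encard_le_eRk_of_subset hBsub).trans ?_
    refine (rk_union_le k _ _).trans ?_
    push_cast at hRest ⊢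
    gcongr
  have hBle' : B.ncard ≤ ρ' + (n - j - 1) * d := by
    have h10 : B.Finite := Set.toFinite B
    rw [← h10.cast_ncard_eq] at hBle
    exact_mod_cast hBle
  obtain ⟨c1, c2⟩ := num_aux hgood hjn h1 h2 h5 hρ'2 hBle'
  refine ⟨c1, ?_⟩
  by_cases hm : m = 0
  · left
    have hli : LinearIndependent K Y := by
      rw [linearIndependent_iff_card_le_finrank_span, Fintype.card_fin]
      have : j ≤ Module.finrank K (Submodule.span K (range Y)) := by omega
      exact this
    obtain ⟨J, hJ, hdet⟩ := exists_minor Y hli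
    refine ⟨J, hJ, ?_⟩
    rw [← hφker]
    have h11 : φ (minorMat k d hjn.le J).det =
        (Matrix.of (fun s t => Y s (J t)) : Matrix (Fin j) (Fin j) K).det := by
      rw [AlgHom.map_det]
      rfl
    rw [h11]
    exact hdet
  · right
    exact c2 (by omega)

/-- one step of the regular sequence -/
lemma concat_of_bound {σ : Type} [Finite σ]
    (l : List (MvPolynomial σ k)) (f : MvPolynomial σ k)
    (hl : IsWeaklyRegular (MvPolynomial σ k) l)
    (h : ∀ q : Ideal (MvPolynomial σ k), q.IsPrime → (∀ f' ∈ l, f' ∈ q) → f ∈ q →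
      ∀ B : Set σ, AlgebraicIndepOn k (fun i => Ideal.Quotient.mk q (X i)) B →
      B.ncard + l.length + 1 ≤ Nat.card σ) :
    IsWeaklyRegular (MvPolynomial σ k) (l ++ [f]) := by
  rw [isWeaklyRegular_concat]
  refine ⟨hl, ?_⟩
  intro g hfg
  by_contra hg
  obtain ⟨q, hq, hfq, x, hx⟩ := exists_prime_colon _ f g hfg hg
  obtain ⟨B, hB, hcard⟩ := unmixed l hl q x hx
  have hlq : ∀ f' ∈ l, f' ∈ q := by
    intro f' hf'
    rw [hx]
    exact Ideal.mul_mem_right _ _ (Ideal.subset_span hf')
  have := h q hq hlq hfq B hB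
  omega

variable (k n d) in
/-- edge polynomial with natural number indices -/
noncomputable def fE (j s : ℕ) : MvPolynomial (Fin n × Fin d) k :=
  if h : j < n ∧ s < n then edgePoly k d ⟨j, h.1⟩ ⟨s, h.2⟩ else 0

variable (k n d) in
/-- list of `f_{j,s}`, `s < i` -/
noncomputable def Rl (j i : ℕ) : List (MvPolynomial (Fin n × Fin d) k) :=
  (List.range i).map (fE k n d j)

variable (k n d) in
/-- list of all `f_{s,t}`, `t < s < j` -/
noncomputable def El : ℕ → List (MvPolynomial (Fin n × Fin d) k)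
  | 0 => []
  | j + 1 => El j ++ Rl k n d j j

lemma length_El (j : ℕ) : 2 * (El k n d j).length + j = j * j := by
  induction j with
  | zero => simp [El]
  | succ j ih =>
    simp only [El, List.length_append, Rl, List.length_map, List.length_range]
    nlinarith

lemma mem_Rl {j i : ℕ} {f : MvPolynomial (Fin n × Fin d) k} :
    f ∈ Rl k n d j i ↔ ∃ s < i, fE k n d j s = f := by
  simp [Rl]

lemma mem_El {j : ℕ} {f : MvPolynomial (Fin n × Fin d) k} :
    f ∈ El k n d j ↔ ∃ s t, t < s ∧ s < j ∧ fE k n d s t = f := by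
  induction j with
  | zero => simp [El]
  | succ j ih =>
    rw [El, List.mem_append, ih, mem_Rl]
    constructor
    · rintro (⟨s, t, h1, h2, rfl⟩ | ⟨t, h1, rfl⟩)
      · exact ⟨s, t, h1, by omega, rfl⟩
      · exact ⟨j, t, h1, by omega, rfl⟩
    · rintro ⟨s, t, h1, h2, rfl⟩
      by_cases h : s < j
      · exact Or.inl ⟨s, t, h1, h, rfl⟩
      · have : s = j := by omega
        subst this
        exact Or.inr ⟨t, h1, rfl⟩

lemma ofList_El {j : ℕ} (hj : j ≤ n) :
    (Ideal.ofList (El k n d j)) = rowIdeal k d j := by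
  apply le_antisymm
  · rw [Ideal.span_le]
    intro f hf
    obtain ⟨s, t, h1, h2, rfl⟩ := mem_El.1 hf
    apply Ideal.subset_span
    refine ⟨⟨s, by omega⟩, ⟨t, by omega⟩, ?_, h2, by simp only; omega, ?_⟩
    · intro h
      rw [Fin.mk.injEq] at h
      omega
    · rw [fE, dif_pos ⟨by omega, by omega⟩]
  · rw [rowIdeal, Ideal.span_le]
    rintro f ⟨s, t, hst, hs, ht, rfl⟩
    apply Ideal.subset_span
    change edgePoly k d s t ∈ El k n d j
    rw [mem_El]
    rcases lt_trichotomy (s : ℕ) t with h | h | h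
    · refine ⟨t, s, h, ht, ?_⟩
      rw [fE, dif_pos ⟨t.2, s.2⟩, edgePoly_comm]
    · exact absurd (Fin.ext h) hst
    · refine ⟨s, t, h, hs, ?_⟩
      rw [fE, dif_pos ⟨s.2, t.2⟩]

lemma regular_step (hgood : Good n d) {j : ℕ} (hjn : j < n)
    (hreg : IsWeaklyRegular (MvPolynomial (Fin n × Fin d) k) (El k n d j)) (i : ℕ) (hij : i ≤ j) :
    IsWeaklyRegular (MvPolynomial (Fin n × Fin d) k) (El k n d j ++ Rl k n d j i) := by
  induction i with
  | zero => simpa [Rl] using hreg
  | succ i ih =>
    have h1 : El k n d j ++ Rl k n d j (i + 1) =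
        (El k n d j ++ Rl k n d j i) ++ [fE k n d j i] := by
      simp [Rl, List.range_succ]
    rw [h1]
    refine concat_of_bound _ _ (ih (by omega)) ?_
    intro q hq hlq hfq B hB
    have hcard : Nat.card (Fin n × Fin d) = n * d := by simp
    have hrow : (rowIdeal k d j : Ideal (MvPolynomial (Fin n × Fin d) k)) ≤ q := by
      rw [← ofList_El hjn.le, Ideal.span_le]
      intro f hf
      exact hlq f (List.mem_append_left _ hf)
    have hR : ∀ s : Fin n, (s : ℕ) < i + 1 → edgePoly k d ⟨j, hjn⟩ s ∈ q := by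
      intro s hs
      have e1 : edgePoly k d ⟨j, hjn⟩ s = fE k n d j s := by
        rw [fE, dif_pos ⟨hjn, s.2⟩]
      rw [e1]
      by_cases hsi : (s : ℕ) < i
      · exact hlq _ (List.mem_append_right _ (mem_Rl.2 ⟨s, hsi, rfl⟩))
      · have : (s : ℕ) = i := by omega
        rw [this]
        exact hfq
    have h2 := (key_bound hgood hjn (i + 1) hij q hq
      (fun s t hst hs ht => hrow (Ideal.subset_span ⟨s, t, hst, hs, ht, rfl⟩)) hR B hB).1
    have h3 := length_El (k := k) (n := n) (d := d) j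
    rw [hcard, List.length_append, Rl, List.length_map, List.length_range]
    nlinarith

theorem prime_of_good (hgood : Good n d) (hnd : n ≤ d + 1) (j : ℕ) (hj : j ≤ n) :
    IsWeaklyRegular (MvPolynomial (Fin n × Fin d) k) (El k n d j) ∧
      (rowIdeal k d j : Ideal (MvPolynomial (Fin n × Fin d) k)).IsPrime := by
  induction j with
  | zero =>
    refine ⟨IsWeaklyRegular.nil _ _, ?_⟩
    have : (rowIdeal k d 0 : Ideal (MvPolynomial (Fin n × Fin d) k)) = ⊥ := by
      rw [← ofList_El (Nat.zero_le n)]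
      simp [El]
    rw [this]
    exact Ideal.isPrime_bot
  | succ j ih =>
    obtain ⟨hreg, hP⟩ := ih (by omega)
    have hjn : j < n := by omega
    have hreg' := regular_step hgood hjn hreg j le_rfl
    refine ⟨hreg', ?_⟩
    refine prime_step hjn (by omega) hP ?_
    rintro q hq ⟨x, hx⟩
    have hx' : ∀ s, s ∈ q ↔ s * x ∈ Ideal.ofList (El k n d (j + 1)) := by
      intro s
      rw [hx, ofList_El hj]
    obtain ⟨B, hB, hcard⟩ := unmixed (El k n d (j + 1)) hreg' q x hx'
    have hI : (rowIdeal k d (j + 1) : Ideal (MvPolynomial (Fin n × Fin d) k)) ≤ q := by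
      intro f hf
      rw [hx]
      exact Ideal.mul_mem_right _ _ hf
    obtain ⟨-, h | h⟩ := key_bound hgood hjn j le_rfl q hq
      (fun s t hst hs ht => hI (Ideal.subset_span ⟨s, t, hst, by omega, by omega, rfl⟩))
      (fun s hs => hI (Ideal.subset_span ⟨⟨j, hjn⟩, s, by
        intro h'
        have := congrArg Fin.val h'
        simp only at this
        omega, by simp, by omega, rfl⟩)) B hB
    · exact h
    · exfalso
      have h3 := length_El (k := k) (n := n) (d := d) (j + 1)
      have hcard' : Nat.card (Fin n × Fin d) = n * d := by simp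
      rw [hcard'] at hcard
      nlinarith

end

end Pool.Agent.H.MP_0e620a_ag
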