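import Pool.Agent.H.MP_0e620a_ag.Rank

/-!
# Bound for the transcendence degree of a matrix with pairwise orthogonal rows
-/

open Set

namespace Pool.Agent.H.MP_0e620a_ag

universe u v w

section

variable (k : Type u) {K : Type v} [Field k] [Field K] [Algebra k K]

lemma rk_step {t s : Set K} {a b ρ : ℕ} (h : rk k (t ∪ s) + (a : ℕ∞) ≤ rk k t + (b : ℕ∞))
    (ht : rk k t ≤ ρ) : ∃ ρ' : ℕ, rk k (t ∪ s) ≤ ρ' ∧ ρ' + a = ρ + b := by
  have h1 : rk k (t ∪ s) + (a : ℕ∞) ≤ ((ρ + b : ℕ) : ℕ∞) := by
    refine h.trans ?_
    push_cast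
    gcongr
  have h2 : rk k (t ∪ s) ≠ ⊤ := by
    intro h3
    rw [h3] at h1
    simp only [top_add, top_le_iff] at h1
    exact ENat.natCast_ne_top _ h1
  obtain ⟨m, hm⟩ := ENat.ne_top_iff_exists.1 h2
  rw [← hm] at h1 ⊢
  have h4 : m + a ≤ ρ + b := by exact_mod_cast h1
  refine ⟨ρ + b - a, ?_, by omega⟩
  have : m ≤ ρ + b - a := by omega
  exact_mod_cast this

/-- Part 1: a family of vectors `x i` with `x i · x j = -δ_ij`. -/
lemma rk_orthonormal {κ β : Type} [Fintype β] (x : κ → β → K)
    (hx : ∀ i, ∑ l, x i l * x i l = -1) (hxx : ∀ i j, i ≠ j → ∑ l, x i l * x j l = 0)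
    (s : Finset κ) :
    ∃ ρ : ℕ, rk k (⋃ i ∈ s, range (x i)) ≤ ρ ∧
      2 * ρ + s.card * (s.card + 1) = 2 * s.card * Fintype.card β := by
  classical
  induction s using Finset.induction_on with
  | empty => exact ⟨0, by simp [rk_empty], by simp⟩
  | insert i s hi ih =>
    obtain ⟨ρ, hρ, hρ2⟩ := ih
    have h1 := rk_row_quad k (⋃ j ∈ s, range (x j)) (x i) (fun j : s => x j)
      (by
        intro j l
        apply IntermediateField.subset_adjoin
        simp only [mem_iUnion, mem_range]
        exact ⟨j, j.2, l, rfl⟩)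
      (by
        rw [Fintype.linearIndependent_iff]
        intro g hg j
        have h2 : ∑ l, (∑ i : s, g i • x i) l * x j l = 0 := by
          rw [hg]; simp
        simp only [Finset.sum_apply, Pi.smul_apply, smul_eq_mul, Finset.sum_mul] at h2
        rw [Finset.sum_comm] at h2
        rw [Finset.sum_eq_single j] at h2
        · simp only [mul_assoc] at h2
          rw [← Finset.mul_sum, hx] at h2
          simpa using h2
        · intro b _ hb
          simp only [mul_assoc]
          rw [← Finset.mul_sum, hxx _ _ (fun h => hb (Subtype.ext h)), mul_zero]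
        · simp)
      (by
        intro j
        exact hxx _ _ (fun h => hi (h ▸ j.2)))
      (hx i)
    rw [Fintype.card_coe] at h1
    obtain ⟨ρ', hρ', hρ'2⟩ := rk_step k h1 hρ
    refine ⟨ρ', ?_, ?_⟩
    · rw [Finset.set_biUnion_insert, union_comm]
      exact hρ'
    · rw [Finset.card_insert_of_notMem hi]
      nlinarith

end

section echelon

variable {K : Type v} [Field K]

/-- Echelon form of the row space of `Y`: pivots `α`, reduced basis `C`. -/
lemma echelon {R : Type} [Fintype R] {d : ℕ} (Y : R → Fin d → K) :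
    ∃ (κ : Type) (_ : Fintype κ) (α : κ → Fin d) (C : κ → Fin d → K),
      Function.Injective α ∧ (∀ i, C i (α i) = 1) ∧ (∀ i i', i ≠ i' → C i (α i') = 0) ∧
      (∀ j l, Y j l = ∑ i, C i l * Y j (α i)) ∧
      (∀ v : Fin d → K, (∀ j, ∑ l, v l * Y j l = 0) → ∀ i, ∑ l, v l * C i l = 0) ∧
      Module.finrank K (Submodule.span K (range Y)) = Fintype.card κ := by
  classical
  let col : Fin d → (R → K) := fun l j => Y j l
  obtain ⟨κ, α, hα, hspan, hli⟩ := exists_linearIndependent' K col
  have : Finite κ := Finite.of_injective α hα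
  have : Fintype κ := Fintype.ofFinite κ
  have hmem : ∀ l, ∃ c : κ → K, ∑ i, c i • col (α i) = col l := by
    intro l
    have h3 : col l ∈ Submodule.span K (range (col ∘ α)) := by
      rw [hspan]
      exact Submodule.subset_span ⟨l, rfl⟩
    rw [Submodule.mem_span_range_iff_exists_fun] at h3
    exact h3
  choose c hc using hmem
  rw [Fintype.linearIndependent_iff] at hli
  have hpiv : ∀ i', c (α i') = Pi.single i' 1 := by
    intro i'
    have h1 : ∑ i, (c (α i') i - Pi.single (M := fun _ => K) i' 1 i) • (col ∘ α) i = 0 := by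
      simp only [sub_smul, Finset.sum_sub_distrib]
      have h2 : ∑ i, (Pi.single (M := fun _ => K) i' 1 i) • (col ∘ α) i = col (α i') := by
        rw [Finset.sum_eq_single i']
        · simp
        · intro b _ hb
          simp [Pi.single_eq_of_ne hb]
        · simp
      rw [h2]
      have := hc (α i')
      rw [sub_eq_zero]
      exact this
    funext i
    have := hli _ h1 i
    exact sub_eq_zero.1 this
  refine ⟨κ, inferInstance, α, fun i l => c l i, hα, ?_, ?_, ?_, ?_, ?_⟩
  · intro i
    simp [hpiv]
  · intro i i' h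
    simp [hpiv, h]
  · intro j l
    have := congrFun (hc l) j
    simp only [Finset.sum_apply, Pi.smul_apply, smul_eq_mul] at this
    exact this.symm
  · intro v hv i
    refine hli (fun i => ∑ l, v l * c l i) ?_ i
    funext j
    simp only [Finset.sum_apply, Pi.smul_apply, smul_eq_mul, Function.comp_apply, Pi.zero_apply]
    have h1 := hv j
    have h2 : ∀ l, Y j l = ∑ i, c l i * Y j (α i) := by
      intro l
      have := congrFun (hc l) j
      simp only [Finset.sum_apply, Pi.smul_apply, smul_eq_mul] at this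
      exact this.symm
    rw [Finset.sum_congr rfl (fun l _ => by rw [h2 l, Finset.mul_sum]), Finset.sum_comm] at h1
    rw [← h1]
    refine Finset.sum_congr rfl fun i _ => ?_
    rw [Finset.sum_mul]
    refine Finset.sum_congr rfl fun l _ => ?_
    simp only [col]
    ring
  · have h1 : (Matrix.of Y).rank = Module.finrank K (Submodule.span K (range Y)) :=
      Matrix.rank_eq_finrank_span_row _
    have h2 : (Matrix.of Y).rank = Module.finrank K (Submodule.span K (range col)) :=
      Matrix.rank_eq_finrank_span_cols _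
    rw [← h1, h2, ← hspan]
    have h3 : LinearIndependent K (col ∘ α) := by
      rw [Fintype.linearIndependent_iff]
      exact hli
    exact finrank_span_eq_card h3

end echelon

section

variable {K : Type v} [Field K]

lemma indep_aux {κ ι : Type} [Fintype κ] [Fintype ι] {d : ℕ} (α : κ → Fin d)
    (w : κ → Fin d → K) (hw1 : ∀ i, w i (α i) = 1) (hw0 : ∀ i i', i ≠ i' → w i (α i') = 0)
    (y : ι → Fin d → K) (hyy : ∀ i, ∑ l, y i l * y i l ≠ 0)
    (hyorth : ∀ i j, i ≠ j → ∑ l, y i l * y j l = 0)
    (hyw : ∀ i j, ∑ l, y i l * w j l = 0) :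
    LinearIndependent K (Sum.elim w y) := by
  classical
  rw [Fintype.linearIndependent_iff]
  intro g hg
  rw [Fintype.sum_sum_type] at hg
  simp only [Sum.elim_inl, Sum.elim_inr] at hg
  have hy0 : ∀ j, g (Sum.inr j) = 0 := by
    intro j
    have h2 : ∑ l, (∑ i, g (Sum.inl i) • w i + ∑ i, g (Sum.inr i) • y i) l * y j l = 0 := by
      rw [hg]; simp
    simp only [Pi.add_apply, Finset.sum_apply, Pi.smul_apply, smul_eq_mul, add_mul,
      Finset.sum_mul, Finset.sum_add_distrib] at h2
    rw [Finset.sum_comm (f := fun x i => g (Sum.inl i) * w i x * y j x),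
      Finset.sum_comm (f := fun x i => g (Sum.inr i) * y i x * y j x)] at h2
    have h3 : ∀ i, ∑ l, g (Sum.inl i) * w i l * y j l = 0 := by
      intro i
      have := hyw j i
      calc ∑ l, g (Sum.inl i) * w i l * y j l = g (Sum.inl i) * ∑ l, y j l * w i l := by
            rw [Finset.mul_sum]
            exact Finset.sum_congr rfl fun l _ => by ring
        _ = 0 := by rw [this, mul_zero]
    rw [Finset.sum_congr rfl (fun i _ => h3 i), Finset.sum_const_zero, zero_add,
      Finset.sum_eq_single j] at h2
    · simp only [mul_assoc] at h2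
      rw [← Finset.mul_sum] at h2
      rcases mul_eq_zero.1 h2 with h | h
      · exact h
      · exact absurd h (hyy j)
    · intro b _ hb
      simp only [mul_assoc]
      rw [← Finset.mul_sum, hyorth _ _ hb, mul_zero]
    · simp
  rintro (i | j)
  · simp only [hy0, zero_smul, Finset.sum_const_zero, add_zero] at hg
    have h4 := congrFun hg (α i)
    simp only [Finset.sum_apply, Pi.smul_apply, smul_eq_mul, Pi.zero_apply] at h4
    rw [Finset.sum_eq_single i] at h4
    · rw [hw1, mul_one] at h4
      exact h4
    · intro b _ hb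
      rw [hw0 _ _ hb, mul_zero]
    · simp
  · exact hy0 j

end

section

variable (k : Type u) {K : Type v} [Field k] [Field K] [Algebra k K]

/-- Part 2: adding pairwise orthogonal non-isotropic rows orthogonal to `w`. -/
lemma rk_nonisotropic {κ ι : Type} [Fintype κ] {d : ℕ} (t : Set K) (α : κ → Fin d)
    (w : κ → Fin d → K) (hw1 : ∀ i, w i (α i) = 1) (hw0 : ∀ i i', i ≠ i' → w i (α i') = 0)
    (hwt : ∀ i l, w i l ∈ IntermediateField.adjoin k t)
    (y : ι → Fin d → K) (hyy : ∀ i, ∑ l, y i l * y i l ≠ 0)
    (hyorth : ∀ i j, i ≠ j → ∑ l, y i l * y j l = 0)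
    (hyw : ∀ i j, ∑ l, y i l * w j l = 0) (ρ : ℕ) (hρ : rk k t ≤ ρ) (s : Finset ι) :
    ∃ ρ' : ℕ, rk k (t ∪ ⋃ i ∈ s, range (y i)) ≤ ρ' ∧
      2 * ρ' + 2 * Fintype.card κ * s.card + s.card * s.card =
        2 * ρ + 2 * s.card * d + s.card := by
  classical
  induction s using Finset.induction_on with
  | empty => exact ⟨ρ, by simpa using hρ, by simp⟩
  | insert i s hi ih =>
    obtain ⟨ρ1, hρ1, hρ2⟩ := ih
    have h1 := rk_row k (t ∪ ⋃ j ∈ s, range (y j)) (y i)
      (Sum.elim w (fun j : s => y j))
      (by
        rintro (j | j) l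
        · exact IntermediateField.adjoin.mono k _ _ subset_union_left (hwt j l)
        · apply IntermediateField.subset_adjoin
          refine Or.inr ?_
          simp only [mem_iUnion, mem_range]
          exact ⟨j, j.2, l, rfl⟩)
      (indep_aux α w hw1 hw0 (fun j : s => y j) (fun j => hyy j)
        (fun j j' h => hyorth _ _ (fun h' => h (Subtype.ext h'))) (fun j j' => hyw _ _))
      (by
        rintro (j | j)
        · rw [← hyw i j]
          exact Finset.sum_congr rfl fun l _ => by simp [mul_comm]
        · exact hyorth _ _ (fun h => hi (h ▸ j.2)))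
    rw [Fintype.card_sum, Fintype.card_coe, Fintype.card_fin] at h1
    obtain ⟨ρ', hρ', hρ'2⟩ := rk_step k h1 hρ1
    refine ⟨ρ', ?_, ?_⟩
    · rw [Finset.set_biUnion_insert, union_comm (range (y i)), ← union_assoc]
      exact hρ'
    · rw [Finset.card_insert_of_notMem hi]
      nlinarith

end

end Pool.Agent.H.MP_0e620a_ag
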