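import Pool.Agent.H.MP_0e620a_ag.Bound

/-!
# Bound for the transcendence degree of a matrix with pairwise orthogonal rows, assembled
-/

open Set

namespace Pool.Agent.H.MP_0e620a_ag

universe u v w

section

variable {K : Type v} [Field K]

lemma sum_split {κ : Type} [Fintype κ] {d : ℕ} (α : κ → Fin d) (hα : Function.Injective α)
    (f : Fin d → K) [Fintype {l : Fin d // l ∉ range α}] :
    ∑ l : {l : Fin d // l ∉ range α}, f l + ∑ i, f (α i) = ∑ l, f l := by
  classical
  have h1 : ∑ i, f (α i) = ∑ l ∈ Finset.univ.map ⟨α, hα⟩, f l := by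
    rw [Finset.sum_map]
    rfl
  have h2 : ∑ l : {l : Fin d // l ∉ range α}, f l = ∑ l ∈ (Finset.univ.map ⟨α, hα⟩)ᶜ, f l := by
    rw [Finset.sum_subtype (p := fun l => l ∉ range α)]
    intro l
    simp
  rw [h1, h2, Finset.sum_compl_add_sum]

/-- the dimension inequality `a + 2 r ≤ d` -/
lemma dim_ineq {κ ι : Type} [Fintype κ] [Fintype ι] {d : ℕ} (α : κ → Fin d)
    (w : κ → Fin d → K) (hw1 : ∀ i, w i (α i) = 1) (hw0 : ∀ i i', i ≠ i' → w i (α i') = 0)
    (hww : ∀ i j, ∑ l, w i l * w j l = 0)
    (y : ι → Fin d → K) (hyy : ∀ i, ∑ l, y i l * y i l ≠ 0)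
    (hyorth : ∀ i j, i ≠ j → ∑ l, y i l * y j l = 0)
    (hyw : ∀ i j, ∑ l, y i l * w j l = 0) :
    Fintype.card ι + 2 * Fintype.card κ ≤ d := by
  classical
  let Φ : (Fin d → K) →ₗ[K] (κ → K) := Matrix.mulVecLin (Matrix.of w)
  have hsurj : Function.Surjective Φ := by
    intro g
    refine ⟨∑ i, g i • Pi.single (α i) 1, ?_⟩
    funext i
    simp only [map_sum, map_smul, Finset.sum_apply, Pi.smul_apply, smul_eq_mul, Φ,
      Matrix.mulVecLin_apply, Matrix.mulVec_single_one, Matrix.col_apply, Matrix.of_apply]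
    rw [Finset.sum_eq_single i]
    · rw [hw1, mul_one]
    · intro b _ hb
      rw [hw0 _ _ (Ne.symm hb), mul_zero]
    · simp
  have hrn := LinearMap.finrank_range_add_finrank_ker Φ
  rw [LinearMap.range_eq_top.2 hsurj, finrank_top, Module.finrank_fintype_fun_eq_card,
    Module.finrank_fintype_fun_eq_card, Fintype.card_fin] at hrn
  have hli := indep_aux α w hw1 hw0 y hyy hyorth hyw
  have hker : ∀ i, Sum.elim w y i ∈ LinearMap.ker Φ := by
    rintro (i | i)
    · rw [LinearMap.mem_ker]
      funext j
      simp only [Sum.elim_inl, Φ, Matrix.mulVecLin_apply, Matrix.mulVec, dotProduct,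
        Matrix.of_apply, Pi.zero_apply]
      exact hww j i
    · rw [LinearMap.mem_ker]
      funext j
      simp only [Sum.elim_inr, Φ, Matrix.mulVecLin_apply, Matrix.mulVec, dotProduct,
        Matrix.of_apply, Pi.zero_apply]
      rw [← hyw i j]
      exact Finset.sum_congr rfl fun l _ => mul_comm _ _
  have h2 : LinearIndependent K (fun i => (⟨Sum.elim w y i, hker i⟩ : LinearMap.ker Φ)) := by
    apply LinearIndependent.of_comp (LinearMap.ker Φ).subtype
    exact hli
  have h3 := h2.fintype_card_le_finrank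
  rw [Fintype.card_sum] at h3
  omega

/-- rank of all rows is at least `a + r` -/
lemma finrank_ge {R ι : Type} [Fintype R] [Fintype ι] {d : ℕ} (Y' : R → Fin d → K)
    (y : ι → Fin d → K) (hyy : ∀ i, ∑ l, y i l * y i l ≠ 0)
    (hyorth : ∀ i j, i ≠ j → ∑ l, y i l * y j l = 0)
    (hyY : ∀ i j, ∑ l, y i l * Y' j l = 0) :
    Fintype.card ι + Module.finrank K (Submodule.span K (range Y')) ≤
      Module.finrank K (Submodule.span K (range Y' ∪ range y)) := by
  classical
  have hdisj : Submodule.span K (range Y') ⊓ Submodule.span K (range y) = ⊥ := by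
    rw [eq_bot_iff]
    intro v hv
    rw [Submodule.mem_inf] at hv
    obtain ⟨hv1, hv2⟩ := hv
    have h1 : ∀ i, ∑ l, y i l * v l = 0 := by
      intro i
      refine Submodule.span_induction (p := fun v _ => ∑ l, y i l * v l = 0) ?_ ?_ ?_ ?_ hv1
      · rintro _ ⟨j, rfl⟩
        exact hyY i j
      · simp
      · intro a b _ _ ha hb
        simp only [Pi.add_apply, mul_add, Finset.sum_add_distrib, ha, hb, add_zero]
      · intro c a _ ha
        simp only [Pi.smul_apply, smul_eq_mul]
        calc ∑ l, y i l * (c * a l) = c * ∑ l, y i l * a l := by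
              rw [Finset.mul_sum]; exact Finset.sum_congr rfl fun l _ => by ring
          _ = 0 := by rw [ha, mul_zero]
    rw [Submodule.mem_span_range_iff_exists_fun] at hv2
    obtain ⟨c, rfl⟩ := hv2
    have h2 : ∀ i, c i = 0 := by
      intro i
      have h3 := h1 i
      simp only [Finset.sum_apply, Pi.smul_apply, smul_eq_mul, Finset.mul_sum] at h3
      rw [Finset.sum_comm, Finset.sum_eq_single i] at h3
      · have h4 : c i * ∑ l, y i l * y i l = 0 := by
          rw [Finset.mul_sum, ← h3]
          exact Finset.sum_congr rfl fun l _ => by ring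
        rcases mul_eq_zero.1 h4 with h | h
        · exact h
        · exact absurd h (hyy i)
      · intro b _ hb
        have h4 : ∑ l, y i l * (c b * y b l) = c b * ∑ l, y i l * y b l := by
          rw [Finset.mul_sum]
          exact Finset.sum_congr rfl fun l _ => by ring
        rw [h4, hyorth _ _ (Ne.symm hb), mul_zero]
      · simp
    rw [Submodule.mem_bot]
    simp [h2]
  have hcard : Module.finrank K (Submodule.span K (range y)) = Fintype.card ι := by
    apply finrank_span_eq_card
    have := indep_aux (κ := Empty) (d := d) (fun e => e.elim) (fun e => e.elim) (fun e => e.elim)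
      (fun e => e.elim) y hyy hyorth (fun _ e => e.elim)
    exact this.comp Sum.inr Sum.inr_injective
  rw [Submodule.span_union]
  have h5 := Submodule.finrank_sup_add_finrank_inf_eq (Submodule.span K (range Y'))
    (Submodule.span K (range y))
  rw [hdisj, finrank_bot] at h5
  omega

end

section

variable (k : Type u) {K : Type v} [Field k] [Field K] [Algebra k K]

/-- **Rank bound**, part 1. -/
theorem rank_bound {n d : ℕ} (Y : Fin n → Fin d → K)
    (horth : ∀ i j, i ≠ j → ∑ l, Y i l * Y j l = 0) :
    ∃ a r m ρ : ℕ, a + r + m = n ∧ a + 2 * r ≤ d ∧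
      a + r ≤ Module.finrank K (Submodule.span K (range Y)) ∧
      rk k (⋃ i, range (Y i)) ≤ ρ ∧
      2 * ρ + r * (r + 1) + 2 * r * r + 2 * a * r + a * a
        = 2 * r * d + 2 * a * d + a + 2 * (r + m) * r := by
  classical
  let N : Finset (Fin n) := Finset.univ.filter (fun i => ∑ l, Y i l * Y i l ≠ 0)
  let y : N → Fin d → K := fun i => Y i
  let Y' : {i : Fin n // i ∉ N} → Fin d → K := fun i => Y i
  obtain ⟨κ, hκ, α, w, hα, hw1, hw0, hYw, hv, hrank⟩ := echelon Y'
  have hyy : ∀ i : N, ∑ l, y i l * y i l ≠ 0 := fun i => (Finset.mem_filter.1 i.2).2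
  have hyorth : ∀ i j : N, i ≠ j → ∑ l, y i l * y j l = 0 :=
    fun i j h => horth _ _ (fun h' => h (Subtype.ext h'))
  have hYY : ∀ i j, ∑ l, Y' i l * Y' j l = 0 := by
    intro i j
    by_cases hij : (i : Fin n) = j
    · have := i.2
      simp only [N, Finset.mem_filter, Finset.mem_univ, true_and, not_not] at this
      have hij' : i = j := Subtype.ext hij
      subst hij'
      exact this
    · exact horth _ _ hij
  have hyY : ∀ (i : N) j, ∑ l, y i l * Y' j l = 0 := by
    intro i j
    exact horth _ _ (fun h => j.2 (h ▸ i.2))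
  have hyw : ∀ (i : N) j, ∑ l, y i l * w j l = 0 := fun i j => hv (y i) (hyY i) j
  have hYw' : ∀ i j, ∑ l, Y' i l * w j l = 0 := fun i j => hv (Y' i) (hYY i) j
  have hww : ∀ i j, ∑ l, w i l * w j l = 0 := by
    intro i j
    refine hv (w i) (fun j' => ?_) j
    rw [← hYw' j' i]
    exact Finset.sum_congr rfl fun l _ => mul_comm _ _
  let β := {l : Fin d // l ∉ range α}
  let x : κ → β → K := fun i l => w i l
  have hβ : Fintype.card β + Fintype.card κ = d := by
    have := sum_split (K := ℚ) α hα (fun _ => 1)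
    simp only [Finset.sum_const, Finset.card_univ, nsmul_eq_mul, mul_one, Fintype.card_fin] at this
    exact_mod_cast this
  have hxx : ∀ i j, ∑ l, x i l * x j l + ∑ i', w i (α i') * w j (α i') = 0 := by
    intro i j
    rw [← hww i j]
    exact sum_split α hα (fun l => w i l * w j l)
  have hx1 : ∀ i, ∑ l, x i l * x i l = -1 := by
    intro i
    have h1 := hxx i i
    rw [Finset.sum_eq_single (a := i) (f := fun i' => w i (α i') * w i (α i'))] at h1
    · rw [hw1, mul_one] at h1
      exact eq_neg_of_add_eq_zero_left h1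
    · intro b _ hb
      rw [hw0 _ _ (Ne.symm hb), mul_zero]
    · simp
  have hx0 : ∀ i j, i ≠ j → ∑ l, x i l * x j l = 0 := by
    intro i j hij
    have h1 := hxx i j
    rw [Finset.sum_eq_zero (f := fun i' => w i (α i') * w j (α i'))] at h1
    · simpa using h1
    · intro b _
      by_cases hb : i = b
      · rw [hw0 j b (fun h => hij (hb.trans h.symm)), mul_zero]
      · rw [hw0 i b hb, zero_mul]
  -- part 1
  obtain ⟨ρ1, hρ1, hρ1'⟩ := rk_orthonormal k x hx1 hx0 Finset.univ
  let X : Set K := ⋃ i ∈ (Finset.univ : Finset κ), range (x i)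
  have hwX : ∀ i l, w i l ∈ IntermediateField.adjoin k X := by
    intro i l
    by_cases hl : l ∈ range α
    · obtain ⟨i', rfl⟩ := hl
      by_cases hii : i = i'
      · subst hii
        rw [hw1]
        exact one_mem _
      · rw [hw0 _ _ hii]
        exact zero_mem _
    · apply IntermediateField.subset_adjoin
      simp only [X, mem_iUnion, mem_range]
      exact ⟨i, Finset.mem_univ _, ⟨l, hl⟩, rfl⟩
  -- part 2
  obtain ⟨ρ2, hρ2, hρ2'⟩ := rk_nonisotropic k X α w hw1 hw0 hwX y hyy hyorth hyw ρ1 hρ1 Finset.univ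
  -- part 3
  let P : Set K := range (fun p : {i : Fin n // i ∉ N} × κ => Y' p.1 (α p.2))
  have hP : P.encard ≤ ((Fintype.card {i : Fin n // i ∉ N} * Fintype.card κ : ℕ) : ℕ∞) := by
    rw [← Fintype.card_prod, ← ENat.card_eq_coe_fintype_card, ← Set.encard_univ]
    have : P = (fun p : {i : Fin n // i ∉ N} × κ => Y' p.1 (α p.2)) '' univ := image_univ.symm
    rw [this]
    exact Set.encard_image_le _ _
  let T2 : Set K := X ∪ ⋃ i ∈ (Finset.univ : Finset N), range (y i)
  have hcl : (⋃ i, range (Y i)) ⊆ cl k (T2 ∪ P) := by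
    intro z hz
    simp only [mem_iUnion, mem_range] at hz
    obtain ⟨i, l, rfl⟩ := hz
    by_cases hi : i ∈ N
    · apply subset_cl
      refine Or.inl (Or.inr ?_)
      simp only [mem_iUnion, mem_range]
      exact ⟨⟨i, hi⟩, Finset.mem_univ _, l, rfl⟩
    · apply adjoin_subset_cl
      have h1 : Y i l = ∑ i', w i' l * Y i (α i') := hYw ⟨i, hi⟩ l
      rw [h1]
      refine sum_mem fun i' _ => mul_mem ?_ ?_
      · exact IntermediateField.adjoin.mono k _ _
          (subset_union_left.trans subset_union_left) (hwX i' l)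
      · apply IntermediateField.subset_adjoin
        exact Or.inr ⟨(⟨i, hi⟩, i'), rfl⟩
  have hρ3 : rk k (⋃ i, range (Y i)) ≤
      ((ρ2 + Fintype.card {i : Fin n // i ∉ N} * Fintype.card κ : ℕ) : ℕ∞) := by
    refine (rk_le_of_subset_cl k hcl).trans ((rk_union_le k _ _).trans ?_)
    push_cast at hP ⊢
    gcongr
  have hNcard : N.card + Fintype.card {i : Fin n // i ∉ N} = n := by
    have h1 : Fintype.card {i : Fin n // i ∉ N} = Nᶜ.card := by
      rw [Fintype.card_subtype]
      congr 1
      ext i
      simp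
    rw [h1, Finset.card_add_card_compl, Fintype.card_fin]
  have hdim := dim_ineq α w hw1 hw0 hww y hyy hyorth hyw
  have hfr := finrank_ge Y' y hyy hyorth hyY
  have hspan : Module.finrank K (Submodule.span K (range Y' ∪ range y)) ≤
      Module.finrank K (Submodule.span K (range Y)) := by
    apply Submodule.finrank_mono
    apply Submodule.span_mono
    rintro _ (⟨i, rfl⟩ | ⟨i, rfl⟩)
    · exact ⟨_, rfl⟩
    · exact ⟨_, rfl⟩
  have hκR : Fintype.card κ ≤ Fintype.card {i : Fin n // i ∉ N} := by
    rw [← hrank]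
    exact finrank_range_le_card Y'
  rw [hrank, Fintype.card_coe] at hfr
  rw [Fintype.card_coe] at hdim
  rw [Finset.card_univ] at hρ1' hρ2'
  rw [Fintype.card_coe] at hρ2'
  refine ⟨N.card, Fintype.card κ, Fintype.card {i : Fin n // i ∉ N} - Fintype.card κ,
    ρ2 + Fintype.card {i : Fin n // i ∉ N} * Fintype.card κ, by omega, hdim, by omega, hρ3, ?_⟩
  have e1 : Fintype.card κ + (Fintype.card {i : Fin n // i ∉ N} - Fintype.card κ) =
    Fintype.card {i : Fin n // i ∉ N} := by omega
  rw [e1]
  generalize Fintype.card {i : Fin n // i ∉ N} = R at *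
  generalize Fintype.card κ = r at *
  generalize N.card = a at *
  generalize Fintype.card β = b at *
  subst hβ
  nlinarith

end

section

variable (k : Type u) {K : Type v} [Field k] [Field K] [Algebra k K]

lemma finrank_prefix {n d : ℕ} (Y : Fin n → Fin d → K) (i : ℕ) (hi : i ≤ n) :
    Module.finrank K (Submodule.span K (range Y)) ≤
      Module.finrank K (Submodule.span K (range (fun s : {s : Fin n // (s : ℕ) < i} => Y s)))
        + (n - i) := by
  classical
  have h1 : range Y = range (fun s : {s : Fin n // (s : ℕ) < i} => Y s) ∪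
      range (fun s : {s : Fin n // ¬ (s : ℕ) < i} => Y s) := by
    ext y
    simp only [mem_range, mem_union, Subtype.exists, exists_prop]
    constructor
    · rintro ⟨s, rfl⟩
      by_cases hs : (s : ℕ) < i
      · exact Or.inl ⟨s, hs, rfl⟩
      · exact Or.inr ⟨s, hs, rfl⟩
    · rintro (⟨s, _, rfl⟩ | ⟨s, _, rfl⟩) <;> exact ⟨s, rfl⟩
  have h2 : Module.finrank K (Submodule.span K
      (range (fun s : {s : Fin n // ¬ (s : ℕ) < i} => Y s))) ≤ n - i := by
    have h3 : Fintype.card {s : Fin n // ¬ (s : ℕ) < i} = n - i := by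
      rw [Fintype.card_subtype_compl, Fintype.card_fin, Fintype.card_subtype]
      congr 1
      have : (Finset.univ.filter fun s : Fin n => (s : ℕ) < i).card = min n i := by
        rw [Fin.card_filter_val_lt]
      rw [this]
      omega
    rw [← h3]
    exact finrank_range_le_card _
  rw [h1, Submodule.span_union]
  refine (Submodule.finrank_add_le_finrank_add_finrank _ _).trans ?_
  omega

lemma rk_add_row {n d : ℕ} (Y : Fin n → Fin d → K) (i : ℕ) (hi : i ≤ n) (m : ℕ)
    (hm : n ≤ Module.finrank K (Submodule.span K (range Y)) + m)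
    (z : Fin d → K) (hz : ∀ s : Fin n, (s : ℕ) < i → ∑ l, Y s l * z l = 0) (ρ : ℕ)
    (hρ : rk k (⋃ i, range (Y i)) ≤ ρ) :
    ∃ ρ' : ℕ, rk k ((⋃ i, range (Y i)) ∪ range z) ≤ ρ' ∧ ρ' + i ≤ ρ + d + m := by
  classical
  obtain ⟨κ, a, ha, hspan, hli⟩ := exists_linearIndependent' K
    (fun s : {s : Fin n // (s : ℕ) < i} => Y s)
  have : Finite κ := Finite.of_injective a ha
  have : Fintype κ := Fintype.ofFinite κ
  have hcard : Module.finrank K (Submodule.span K
      (range (fun s : {s : Fin n // (s : ℕ) < i} => Y s))) = Fintype.card κ := by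
    rw [← hspan]
    exact finrank_span_eq_card hli
  have h1 := rk_row k (⋃ i, range (Y i)) z (fun j => Y (a j))
    (by
      intro j l
      apply IntermediateField.subset_adjoin
      simp only [mem_iUnion, mem_range]
      exact ⟨a j, l, rfl⟩) hli (fun j => hz _ (a j).2)
  rw [Fintype.card_fin] at h1
  obtain ⟨ρ', hρ', hρ'2⟩ := rk_step k h1 hρ
  refine ⟨ρ', hρ', ?_⟩
  have h2 := finrank_prefix Y i hi
  rw [hcard] at h2
  omega

end

end Pool.Agent.H.MP_0e620a_ag
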