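import Pool.Agent.H.MP_0e620a_ag.Reg2

/-!
# Unmixedness
-/

open RingTheory.Sequence MvPolynomial

namespace Pool.Agent.H.MP_0e620a_ag

universe u

attribute [local instance] MvPolynomial.algebraMvPolynomial

lemma length_ge_of_algebraic {R0 : Type u} [CommRing R0] [IsDomain R0] (m : ℕ)
    (q : Ideal (MvPolynomial (Fin m) R0)) (hq0 : ∀ r : R0, C r ∈ q → r = 0)
    (halg : ∀ i : Fin m, ∃ P : Polynomial R0, P ≠ 0 ∧ Polynomial.aeval (X i) P ∈ q)
    (rs : List (MvPolynomial (Fin m) R0)) (hrs : IsWeaklyRegular (MvPolynomial (Fin m) R0) rs)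
    (x : MvPolynomial (Fin m) R0) (hx : ∀ s, s ∈ q ↔ s * x ∈ Ideal.ofList rs) :
    m ≤ rs.length := by
  by_contra hlt
  push Not at hlt
  let F := FractionRing R0
  let S := MvPolynomial (Fin m) R0
  let S' := MvPolynomial (Fin m) F
  let T : Submonoid S := (nonZeroDivisors R0).map (C : R0 →+* S)
  have : IsLocalization T S' := MvPolynomial.isLocalization (nonZeroDivisors R0) F
  let q' : Ideal S' := q.map (algebraMap S S')
  have hq' : q' ≠ ⊤ := by
    rw [IsLocalization.map_algebraMap_ne_top_iff_disjoint T S']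
    rw [Set.disjoint_left]
    rintro _ ⟨r, hr, rfl⟩ h2
    exact nonZeroDivisors.ne_zero hr (hq0 r h2)
  choose P hP0 hPq using halg
  -- monic normalisation over F
  let p : Fin m → Polynomial F := fun i =>
    Polynomial.C ((algebraMap R0 F (P i).leadingCoeff)⁻¹) * (P i).map (algebraMap R0 F)
  have hp : ∀ i, (p i).Monic := by
    intro i
    have h1 : (Polynomial.map (algebraMap R0 F) (P i)).leadingCoeff =
        algebraMap R0 F (P i).leadingCoeff :=
      Polynomial.leadingCoeff_map_of_injective (IsFractionRing.injective R0 F) _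
    have h2 : algebraMap R0 F (P i).leadingCoeff ≠ 0 := by
      intro h
      rw [IsFractionRing.to_map_eq_zero_iff, Polynomial.leadingCoeff_eq_zero] at h
      exact hP0 i h
    rw [Polynomial.Monic, Polynomial.leadingCoeff_mul, Polynomial.leadingCoeff_C, h1,
      inv_mul_cancel₀ h2]
  obtain ⟨L, hLlen, hL, hLreg⟩ := exists_list_monic m p hp
  have hLq : ∀ f ∈ L, f ∈ q' := by
    intro f hf
    obtain ⟨i, rfl⟩ := hL f hf
    simp only [p, map_mul]
    refine Ideal.mul_mem_left _ _ ?_
    have : Polynomial.aeval (X i : S') (Polynomial.map (algebraMap R0 F) (P i)) =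
        algebraMap S S' (Polynomial.aeval (X i) (P i)) := by
      rw [Polynomial.aeval_map_algebraMap]
      have h3 : (X i : S') = algebraMap S S' (X i) := by
        rw [MvPolynomial.algebraMap_def, map_X]
      rw [h3]
      have := Polynomial.aeval_algHom_apply (MvPolynomial.mapAlgHom (Algebra.ofId R0 F)
        : S →ₐ[R0] S') (X i) (P i)
      exact this
    rw [this]
    exact Ideal.mem_map_of_mem _ (hPq i)
  have hrs' : IsWeaklyRegular S' (rs.map (algebraMap S S')) := hrs.of_isLocalization S' T
  have hx' : ∀ s ∈ q', s * (algebraMap S S' x) ∈ Ideal.ofList (rs.map (algebraMap S S')) := by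
    intro s hs
    rw [← Ideal.map_ofList]
    have hle : q' ≤ ((Ideal.ofList rs).map (algebraMap S S')).colon {algebraMap S S' x} := by
      rw [Ideal.map_le_iff_le_comap]
      intro t ht
      rw [Ideal.mem_comap, Submodule.mem_colon_singleton, smul_eq_mul, ← map_mul]
      exact Ideal.mem_map_of_mem _ ((hx t).1 ht)
    have := hle hs
    rwa [Submodule.mem_colon_singleton, smul_eq_mul] at this
  have hmem := not_assoc_of_length_lt q' hq' L hLreg hLq (rs.map (algebraMap S S')) hrs'
    (by simpa [hLlen] using hlt) (algebraMap S S' x) hx'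
  rw [← Ideal.map_ofList, IsLocalization.algebraMap_mem_map_algebraMap_iff T S'] at hmem
  obtain ⟨_, ⟨r, hr, rfl⟩, h⟩ := hmem
  exact nonZeroDivisors.ne_zero hr (hq0 r ((hx _).2 h))

/-- **Unmixedness.** Let `rs` be a weakly regular sequence in the polynomial ring `k[X_σ]`, and let
`q = ((rs) : x)` be a prime ideal. Then there are at least `#σ - rs.length` variables which are
algebraically independent modulo `q`. -/
theorem unmixed {k : Type u} [Field k] {σ : Type} [Finite σ] (rs : List (MvPolynomial σ k))
    (hrs : IsWeaklyRegular (MvPolynomial σ k) rs) (q : Ideal (MvPolynomial σ k)) [q.IsPrime]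
    (x : MvPolynomial σ k) (hx : ∀ s, s ∈ q ↔ s * x ∈ Ideal.ofList rs) :
    ∃ B : Set σ, AlgebraicIndepOn k (fun i => Ideal.Quotient.mk q (X i)) B ∧
      Nat.card σ ≤ rs.length + B.ncard := by
  classical
  let A := MvPolynomial σ k ⧸ q
  let v : σ → A := fun i => Ideal.Quotient.mk q (X i)
  obtain ⟨B, hB⟩ := Set.Finite.exists_maximal (s := {B : Set σ | AlgebraicIndepOn k v B})
    (Set.toFinite _) ⟨∅, by
      change AlgebraicIndependent k _
      rw [algebraicIndependent_empty_type_iff]
      exact FaithfulSMul.algebraMap_injective k A⟩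
  have hBind : AlgebraicIndepOn k v B := hB.1
  have halg : ∀ i, i ∉ B → IsAlgebraic (Algebra.adjoin k (v '' B)) (v i) := by
    intro i hi
    by_contra h
    have h1 : AlgebraicIndepOn k v (insert i B) :=
      (AlgebraicIndepOn.insert_iff hi).2 ⟨hBind, h⟩
    have h2 := hB.2 (y := insert i B) h1 (Set.subset_insert i B)
    exact hi (h2 (Set.mem_insert i B))
  let m := Nat.card (Bᶜ : Set σ)
  let eτ : (Bᶜ : Set σ) ≃ Fin m := Finite.equivFin _
  let eσ : σ ≃ Fin m ⊕ B :=
    ((Equiv.Set.sumCompl B).symm.trans (Equiv.sumComm _ _)).trans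
      (Equiv.sumCongr eτ (Equiv.refl _))
  let E : MvPolynomial σ k ≃ₐ[k] MvPolynomial (Fin m) (MvPolynomial B k) :=
    (renameEquiv k eσ).trans (sumAlgEquiv k (Fin m) B)
  have hEB : ∀ b : B, E (X (b : σ)) = C (X b) := by
    intro b
    simp only [E, AlgEquiv.trans_apply, renameEquiv_apply, rename_X]
    have : eσ (b : σ) = Sum.inr b := by
      simp [eσ]
    rw [this, sumAlgEquiv_X_inr]
  have hEτ : ∀ i : (Bᶜ : Set σ), E (X (i : σ)) = X (eτ i) := by
    intro i
    simp only [E, AlgEquiv.trans_apply, renameEquiv_apply, rename_X]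
    have : eσ (i : σ) = Sum.inl (eτ i) := by
      simp [eσ, Equiv.Set.sumCompl_symm_apply_compl]
    rw [this, sumAlgEquiv_X_inl]
  refine ⟨B, hBind, ?_⟩
  have hcard : Nat.card σ = m + B.ncard := by
    rw [Nat.card_congr eσ, Nat.card_sum, Nat.card_eq_fintype_card, Fintype.card_fin]
    rfl
  rw [hcard]
  -- the hom to A
  let φ : MvPolynomial (Fin m) (MvPolynomial B k) →ₐ[k] A :=
    (Ideal.Quotient.mkₐ k q).comp E.symm.toAlgHom
  have hφC : ∀ r : MvPolynomial B k, φ (C r) = aeval (fun b : B => v b) r := by
    intro r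
    have : (φ.comp (IsScalarTower.toAlgHom k (MvPolynomial B k)
        (MvPolynomial (Fin m) (MvPolynomial B k)))) = aeval (fun b : B => v b) := by
      apply MvPolynomial.algHom_ext
      intro b
      rw [aeval_X]
      change Ideal.Quotient.mk q (E.symm (C (X b))) = v b
      rw [← hEB b, AlgEquiv.symm_apply_apply]
    exact congrArg (fun f => f r) this
  have hφX : ∀ j, φ (X j) = v (eτ.symm j) := by
    intro j
    change Ideal.Quotient.mk q (E.symm (X j)) = _
    have : (X j : MvPolynomial (Fin m) (MvPolynomial B k)) = E (X ((eτ.symm j : (Bᶜ : Set σ)) : σ)) := by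
      rw [hEτ, Equiv.apply_symm_apply]
    rw [this, AlgEquiv.symm_apply_apply]
  let q' : Ideal (MvPolynomial (Fin m) (MvPolynomial B k)) := RingHom.ker φ.toRingHom
  have hq'mem : ∀ s, s ∈ q' ↔ E.symm s ∈ q := by
    intro s
    change Ideal.Quotient.mk q (E.symm s) = 0 ↔ _
    rw [Ideal.Quotient.eq_zero_iff_mem]
  have key := length_ge_of_algebraic m q' (by
      intro r hr
      have : φ (C r) = 0 := hr
      rw [hφC] at this
      exact hBind.eq_zero_of_aeval_eq_zero r this) (by
      intro j
      have h1 := halg (eτ.symm j) (eτ.symm j).2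
      have h2 : IsAlgebraic (Algebra.adjoin k (Set.range fun b : B => v b)) (v (eτ.symm j)) := by
        rwa [← Set.image_eq_range]
      obtain ⟨P₁, hP₁, hP₁0⟩ := h2
      let e := (AlgebraicIndependent.aevalEquiv hBind).symm.toRingEquiv.toRingHom
      refine ⟨P₁.map e, ?_, ?_⟩
      · rw [Polynomial.map_ne_zero_iff]
        · exact hP₁
        · exact (AlgebraicIndependent.aevalEquiv hBind).symm.injective
      · change φ _ = 0
        rw [Polynomial.aeval_def, Polynomial.eval₂_map, ← AlgHom.coe_toRingHom,
          Polynomial.hom_eval₂]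
        have h3 : (φ : MvPolynomial (Fin m) (MvPolynomial B k) →+* A).comp
            ((algebraMap (MvPolynomial B k) (MvPolynomial (Fin m) (MvPolynomial B k))).comp e) =
            algebraMap (Algebra.adjoin k (Set.range fun b : B => v b)) A := by
          ext a
          change φ (C _) = _
          rw [hφC]
          exact AlgebraicIndependent.aeval_repr hBind a
        rw [h3, AlgHom.coe_toRingHom, hφX]
        exact hP₁0) (rs.map E)
      ((isWeaklyRegular_ringEquiv E.toRingEquiv rs).1 hrs) (E x) (by
      intro s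
      rw [hq'mem, hx]
      have h4 : Ideal.ofList (rs.map E) = (Ideal.ofList rs).map E.toRingEquiv.toRingHom := by
        rw [Ideal.map_ofList]; rfl
      rw [h4]
      constructor
      · intro h
        have := Ideal.mem_map_of_mem E.toRingEquiv.toRingHom h
        have h5 : E.toRingEquiv.toRingHom (E.symm s * x) = s * E x := by
          change E (E.symm s * x) = _
          rw [map_mul, AlgEquiv.apply_symm_apply]
        rwa [h5] at this
      · intro h
        obtain ⟨y, hy, hy2⟩ := (Ideal.mem_map_iff_of_surjective E.toRingEquiv.toRingHom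
          E.toRingEquiv.surjective).1 h
        have h6 : y = E.symm s * x := by
          apply E.injective
          rw [map_mul, AlgEquiv.apply_symm_apply]
          exact hy2
        rwa [← h6])
  rw [List.length_map] at key
  omega

lemma exists_prime_colon {R : Type u} [CommRing R] [IsNoetherianRing R] (I : Ideal R) (f g : R)
    (hfg : f * g ∈ I) (hg : g ∉ I) :
    ∃ q : Ideal R, q.IsPrime ∧ f ∈ q ∧ ∃ x, ∀ s, s ∈ q ↔ s * x ∈ I := by
  obtain ⟨P, hP, hle⟩ := exists_le_isAssociatedPrime_of_isNoetherianRing R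
    (Ideal.Quotient.mk I g) (by rwa [ne_eq, Ideal.Quotient.eq_zero_iff_mem])
  rw [isAssociatedPrime_iff] at hP
  obtain ⟨hprime, y, hy⟩ := hP
  obtain ⟨x, rfl⟩ := Ideal.Quotient.mk_surjective y
  refine ⟨P, hprime, hle ?_, x, ?_⟩
  · rw [Submodule.mem_colon_singleton, Submodule.mem_bot, ← Ideal.Quotient.mk_eq_mk,
      ← Submodule.Quotient.mk_smul, Ideal.Quotient.mk_eq_mk, Ideal.Quotient.eq_zero_iff_mem]
    exact hfg
  · intro s
    rw [hy, Submodule.mem_colon_singleton, Submodule.mem_bot, ← Ideal.Quotient.mk_eq_mk,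
      ← Submodule.Quotient.mk_smul, Ideal.Quotient.mk_eq_mk, Ideal.Quotient.eq_zero_iff_mem]
    rfl

/-- A list of polynomials, all of whose initial segments cut out a locus of the expected
dimension, is weakly regular. -/
theorem isWeaklyRegular_of_bound {k : Type u} [Field k] {σ : Type} [Finite σ]
    (fs : List (MvPolynomial σ k))
    (h : ∀ l, l <+: fs → ∀ q : Ideal (MvPolynomial σ k), q.IsPrime → (∀ f ∈ l, f ∈ q) →
      ∀ B : Set σ, AlgebraicIndepOn k (fun i => Ideal.Quotient.mk q (X i)) B →
      B.ncard + l.length ≤ Nat.card σ) :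
    IsWeaklyRegular (MvPolynomial σ k) fs := by
  induction fs using List.reverseRecOn with
  | nil => exact IsWeaklyRegular.nil _ _
  | append_singleton l f ih =>
    have hl : IsWeaklyRegular (MvPolynomial σ k) l :=
      ih (fun l' hl' => h l' (hl'.trans (List.prefix_append _ _)))
    rw [isWeaklyRegular_concat]
    refine ⟨hl, ?_⟩
    intro g hfg
    by_contra hg
    obtain ⟨q, hq, hfq, x, hx⟩ := exists_prime_colon _ f g hfg hg
    obtain ⟨B, hB, hcard⟩ := unmixed l hl q x hx
    have hlq : ∀ f' ∈ l ++ [f], f' ∈ q := by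
      intro f' hf'
      rw [List.mem_append, List.mem_singleton] at hf'
      rcases hf' with hf' | rfl
      · rw [hx]
        exact Ideal.mul_mem_right _ _ (Ideal.subset_span hf')
      · exact hfq
    have := h (l ++ [f]) (List.prefix_refl _) q hq hlq B hB
    rw [List.length_append, List.length_singleton] at this
    omega

end Pool.Agent.H.MP_0e620a_ag
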