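import Pool.Agent.H.MP_0e620a_ag.Bound2
import Pool.Agent.H.MP_0e620a_ag.Reg3

/-!
# Elimination of one row by minors
-/

open Set MvPolynomial

namespace Pool.Agent.H.MP_0e620a_ag

universe u v w

section

variable (k : Type u) [Field k] {n : ℕ} (d : ℕ)

/-- the polynomial `f_{ij} = Σ_l y_{il} y_{jl}` -/
noncomputable def edgePoly (i j : Fin n) : MvPolynomial (Fin n × Fin d) k :=
  ∑ l : Fin d, X (i, l) * X (j, l)

lemma edgePoly_comm (i j : Fin n) : edgePoly k d i j = edgePoly k d j i :=
  Finset.sum_congr rfl fun _ _ => mul_comm _ _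

/-- ideal of the rows `< j` being pairwise orthogonal -/
noncomputable def rowIdeal (j : ℕ) : Ideal (MvPolynomial (Fin n × Fin d) k) :=
  Ideal.span {f | ∃ s t : Fin n, s ≠ t ∧ (s : ℕ) < j ∧ (t : ℕ) < j ∧ f = edgePoly k d s t}

lemma rowIdeal_mono {j j' : ℕ} (h : j ≤ j') :
    (rowIdeal k d j : Ideal (MvPolynomial (Fin n × Fin d) k)) ≤ rowIdeal k d j' := by
  apply Ideal.span_mono
  rintro f ⟨s, t, h1, h2, h3, rfl⟩
  exact ⟨s, t, h1, by omega, by omega, rfl⟩

/-- the matrix of a minor of the first `j` rows, with columns `J` -/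
noncomputable def minorMat {j : ℕ} (hj : j ≤ n) (J : Fin j → Fin d) :
    Matrix (Fin j) (Fin j) (MvPolynomial (Fin n × Fin d) k) :=
  fun s t => X (Fin.castLE hj s, J t)

end

section

variable {k : Type u} [Field k] {n : ℕ} {d : ℕ}

/-- evaluation at standard basis vectors shows that minors are not in `rowIdeal` -/
lemma det_notMem {j : ℕ} (hj : j ≤ n) (J : Fin j → Fin d) (hJ : Function.Injective J) :
    (minorMat k d hj J).det ∉ rowIdeal k d j := by
  classical
  intro hmem
  let ev : MvPolynomial (Fin n × Fin d) k →+* k :=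
    (MvPolynomial.aeval (fun p : Fin n × Fin d =>
      if h : (p.1 : ℕ) < j then (if p.2 = J ⟨p.1, h⟩ then (1 : k) else 0) else 0)).toRingHom
  have hev : ∀ p, ev (X p) = if h : (p.1 : ℕ) < j then (if p.2 = J ⟨p.1, h⟩ then (1 : k) else 0)
      else 0 := by
    intro p
    exact MvPolynomial.aeval_X _ p
  have h1 : rowIdeal k d j ≤ RingHom.ker ev := by
    rw [rowIdeal, Ideal.span_le]
    rintro f ⟨s, t, hst, hs, ht, rfl⟩
    rw [SetLike.mem_coe, RingHom.mem_ker, edgePoly, map_sum]
    apply Finset.sum_eq_zero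
    intro l _
    rw [map_mul, hev, hev, dif_pos hs, dif_pos ht]
    by_cases h2 : l = J ⟨s, hs⟩
    · by_cases h3 : l = J ⟨t, ht⟩
      · exfalso
        apply hst
        have := hJ (h2.symm.trans h3)
        rw [Fin.mk.injEq] at this
        exact Fin.ext this
      · rw [if_neg h3, mul_zero]
    · rw [if_neg h2, zero_mul]
  have h2 : ev (minorMat k d hj J).det = 1 := by
    rw [RingHom.map_det]
    have : ev.mapMatrix (minorMat k d hj J) = 1 := by
      ext s t
      simp only [RingHom.mapMatrix_apply, Matrix.map_apply, minorMat, hev, Fin.val_castLE,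
        s.2, dif_pos, Fin.eta, Matrix.one_apply]
      by_cases hst : s = t
      · subst hst; simp
      · rw [if_neg (fun h => hst (hJ h).symm), if_neg hst]
    rw [this, Matrix.det_one]
  have h3 := h1 hmem
  rw [RingHom.mem_ker, h2] at h3
  exact one_ne_zero h3

/-- The elimination homomorphism. -/
lemma exists_elim {j : ℕ} (hjn : j < n) (hP : (rowIdeal k d j :
      Ideal (MvPolynomial (Fin n × Fin d) k)).IsPrime)
    (J : Fin j → Fin d) (hJ : Function.Injective J) :
    ∃ (Q : Type u) (_ : Field Q) (ι ψ : MvPolynomial (Fin n × Fin d) k →+* Q),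
      RingHom.ker ι = rowIdeal k d j ∧
      ψ (minorMat k d hjn.le J).det = ι (minorMat k d hjn.le J).det ∧
      (∀ (J' : Fin j → Fin d), ψ (minorMat k d hjn.le J').det = ι (minorMat k d hjn.le J').det) ∧
      (∀ f, f ∈ RingHom.ker ψ ↔ ∃ N : ℕ, (minorMat k d hjn.le J).det ^ N * f ∈
        rowIdeal k d (j + 1)) := by
  classical
  let S := MvPolynomial (Fin n × Fin d) k
  let P : Ideal S := rowIdeal k d j
  have : P.IsPrime := hP
  let Q := FractionRing (S ⧸ P)
  let ι : S →+* Q := (algebraMap (S ⧸ P) Q).comp (Ideal.Quotient.mk P)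
  have hkerι : RingHom.ker ι = P := by
    ext f
    rw [RingHom.mem_ker, RingHom.comp_apply, IsFractionRing.to_map_eq_zero_iff,
      Ideal.Quotient.eq_zero_iff_mem]
  let jn : Fin n := ⟨j, hjn⟩
  let Mx : Matrix (Fin j) (Fin j) S := minorMat k d hjn.le J
  let Δ : S := Mx.det
  have hΔ : ι Δ ≠ 0 := by
    intro h
    have h1 : Δ ∈ RingHom.ker ι := h
    rw [hkerι] at h1
    exact det_notMem hjn.le J hJ h1
  let M : Matrix (Fin j) (Fin j) Q := ι.mapMatrix Mx
  have hMdet : M.det = ι Δ := (RingHom.map_det ι Mx).symm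
  let b : Fin j → Q := fun s => -∑ l : {l : Fin d // l ∉ range J},
    ι (X (Fin.castLE hjn.le s, (l : Fin d))) * ι (X (jn, (l : Fin d)))
  let z : Fin j → Q := M⁻¹.mulVec b
  have hz : M.mulVec z = b := by
    rw [Matrix.mulVec_mulVec, Matrix.mul_nonsing_inv, Matrix.one_mulVec]
    rw [hMdet]
    exact isUnit_iff_ne_zero.2 hΔ
  let val : Fin n × Fin d → Q := fun p =>
    if p.1 = jn then (if h : ∃ t, J t = p.2 then z h.choose else ι (X p)) else ι (X p)
  let ψ : S →+* Q := MvPolynomial.eval₂Hom (ι.comp C) val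
  have ψC : ∀ a, ψ (C a) = ι (C a) := fun a => MvPolynomial.eval₂Hom_C _ _ a
  have ψX : ∀ p, ψ (X p) = val p := fun p => MvPolynomial.eval₂Hom_X' _ _ p
  have ψX1 : ∀ p : Fin n × Fin d, p.1 ≠ jn → ψ (X p) = ι (X p) := by
    intro p hp
    rw [ψX]
    simp only [val, if_neg hp]
  have ψX2 : ∀ l : Fin d, l ∉ range J → ψ (X (jn, l)) = ι (X (jn, l)) := by
    intro l hl
    rw [ψX]
    simp only [val, if_true]
    have hl' : ¬ ∃ t, J t = l := hl
    rw [dif_neg hl']
  have ψX3 : ∀ t : Fin j, ψ (X (jn, J t)) = z t := by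
    intro t
    rw [ψX]
    simp only [val, if_true]
    have h : ∃ t', J t' = J t := ⟨t, rfl⟩
    rw [dif_pos h, hJ h.choose_spec]
  have hrow : ∀ s : Fin j, (Fin.castLE hjn.le s) ≠ jn := by
    intro s h
    have := congrArg Fin.val h
    simp only [Fin.val_castLE, jn] at this
    exact absurd this (ne_of_lt s.2)
  have ψmat : ∀ J' : Fin j → Fin d,
      ψ.mapMatrix (minorMat k d hjn.le J') = ι.mapMatrix (minorMat k d hjn.le J') := by
    intro J'
    ext s t
    simp only [RingHom.mapMatrix_apply, Matrix.map_apply, minorMat]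
    exact ψX1 _ (hrow s)
  have ψdet : ∀ J' : Fin j → Fin d,
      ψ (minorMat k d hjn.le J').det = ι (minorMat k d hjn.le J').det := by
    intro J'
    rw [RingHom.map_det, RingHom.map_det, ψmat]
  -- ψ kills I
  have hψP : ∀ s t : Fin n, s ≠ t → (s : ℕ) < j → (t : ℕ) < j → ψ (edgePoly k d s t) = 0 := by
    intro s t hst hs ht
    have h1 : ψ (edgePoly k d s t) = ι (edgePoly k d s t) := by
      rw [edgePoly, map_sum, map_sum]
      refine Finset.sum_congr rfl fun l _ => ?_
      rw [map_mul, map_mul, ψX1, ψX1]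
      · intro h
        have := congrArg Fin.val h
        simp only [jn] at this
        omega
      · intro h
        have := congrArg Fin.val h
        simp only [jn] at this
        omega
    rw [h1, ← RingHom.mem_ker, hkerι]
    exact Ideal.subset_span ⟨s, t, hst, hs, ht, rfl⟩
  have hψj : ∀ s : Fin j, ψ (edgePoly k d jn (Fin.castLE hjn.le s)) = 0 := by
    intro s
    rw [edgePoly, map_sum, ← sum_split J hJ]
    have h1 : ∀ l : {l : Fin d // l ∉ range J},
        ψ (X (jn, (l : Fin d)) * X (Fin.castLE hjn.le s, (l : Fin d))) =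
        ι (X (Fin.castLE hjn.le s, (l : Fin d))) * ι (X (jn, (l : Fin d))) := by
      intro l
      rw [map_mul, ψX2 _ l.2, ψX1 _ (hrow s), mul_comm]
    have h2 : ∀ t : Fin j, ψ (X (jn, J t) * X (Fin.castLE hjn.le s, J t)) = M s t * z t := by
      intro t
      rw [map_mul, ψX3, ψX1 _ (hrow s), mul_comm]
      rfl
    rw [Finset.sum_congr rfl (fun l _ => h1 l), Finset.sum_congr rfl (fun t _ => h2 t)]
    have h3 : ∑ t, M s t * z t = b s := congrFun hz s
    rw [h3]
    simp only [b]
    convert add_neg_cancel _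
  have hI : (rowIdeal k d (j + 1) : Ideal S) ≤ RingHom.ker ψ := by
    rw [rowIdeal, Ideal.span_le]
    rintro f ⟨s, t, hst, hs, ht, rfl⟩
    rw [SetLike.mem_coe, RingHom.mem_ker]
    by_cases hs' : (s : ℕ) < j
    · by_cases ht' : (t : ℕ) < j
      · exact hψP s t hst hs' ht'
      · have htj : t = jn := Fin.ext (by simp only [jn]; omega)
        have hsj : s = Fin.castLE hjn.le ⟨s, hs'⟩ := Fin.ext rfl
        rw [edgePoly_comm, htj, hsj]
        exact hψj _
    · have hsj : s = jn := Fin.ext (by simp only [jn]; omega)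
      have ht' : (t : ℕ) < j := by
        have : (t : ℕ) ≠ s := fun h => hst (Fin.ext h.symm)
        omega
      have htj : t = Fin.castLE hjn.le ⟨t, ht'⟩ := Fin.ext rfl
      rw [htj, hsj]
      exact hψj _
  refine ⟨Q, inferInstance, ι, ψ, hkerι, ψdet J, ψdet, ?_⟩
  -- the elimination
  have helim : ∀ f : S, ∃ (N : ℕ) (g : S), ψ g = ι g ∧ Δ ^ N * f - g ∈ rowIdeal k d (j + 1) := by
    intro f
    induction f using MvPolynomial.induction_on with
    | C a => exact ⟨0, C a, ψC a, by simp⟩
    | add f g hf hg =>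
      obtain ⟨N1, g1, h1, h1'⟩ := hf
      obtain ⟨N2, g2, h2, h2'⟩ := hg
      refine ⟨N1 + N2, Δ ^ N2 * g1 + Δ ^ N1 * g2, ?_, ?_⟩
      · simp only [map_add, map_mul, map_pow, h1, h2]
        rw [ψdet J]
      · have : Δ ^ (N1 + N2) * (f + g) - (Δ ^ N2 * g1 + Δ ^ N1 * g2) =
            Δ ^ N2 * (Δ ^ N1 * f - g1) + Δ ^ N1 * (Δ ^ N2 * g - g2) := by ring
        rw [this]
        exact Ideal.add_mem _ (Ideal.mul_mem_left _ _ h1') (Ideal.mul_mem_left _ _ h2')
    | mul_X f p hf =>
      obtain ⟨N1, g1, h1, h1'⟩ := hf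
      by_cases hp : p.1 = jn ∧ ∃ t, J t = p.2
      · obtain ⟨hp1, t, hp2⟩ := hp
        have hpe : p = (jn, J t) := Prod.ext hp1 hp2.symm
        subst hpe
        let h : S := -∑ s, Mx.adjugate t s *
          ∑ l : {l : Fin d // l ∉ range J}, X (Fin.castLE hjn.le s, (l : Fin d)) * X (jn, (l : Fin d))
        refine ⟨N1 + 1, g1 * h, ?_, ?_⟩
        · have hadj : ∀ s, ψ (Mx.adjugate t s) = ι (Mx.adjugate t s) := by
            intro s
            have e1 : ψ.mapMatrix Mx.adjugate = ι.mapMatrix Mx.adjugate := by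
              rw [RingHom.map_adjugate, RingHom.map_adjugate, ψmat J]
            exact congrFun (congrFun e1 t) s
          rw [map_mul, map_mul, h1]
          congr 1
          simp only [h, map_neg, map_sum, map_mul]
          congr 1
          refine Finset.sum_congr rfl fun s _ => ?_
          rw [hadj s]
          congr 1
          refine Finset.sum_congr rfl fun l _ => ?_
          rw [ψX2 _ l.2, ψX1 _ (hrow s)]
        · have key : Δ * X (jn, J t) - h ∈ rowIdeal k d (j + 1) := by
            have e1 : Δ * X (jn, J t) = ∑ s, Mx.adjugate t s *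
                ∑ t', Mx s t' * X (jn, J t') := by
              have e2 := congrFun (congrArg (fun A : Matrix (Fin j) (Fin j) S =>
                A.mulVec (fun t' => X (jn, J t'))) (Matrix.adjugate_mul Mx)) t
              simp only [← Matrix.mulVec_mulVec, Matrix.smul_mulVec, Matrix.one_mulVec] at e2
              exact e2.symm
            have e3 : Δ * X (jn, J t) - h = ∑ s, Mx.adjugate t s *
                edgePoly k d jn (Fin.castLE hjn.le s) := by
              rw [e1]
              simp only [h]
              rw [sub_neg_eq_add, ← Finset.sum_add_distrib]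
              refine Finset.sum_congr rfl fun s _ => ?_
              rw [← mul_add]
              congr 1
              rw [edgePoly]
              have e4 : ∀ (F : Fin d → S), ∑ l : {l : Fin d // l ∉ range J}, F l + ∑ i, F (J i) =
                  ∑ l, F l := by
                intro F
                have h1 : ∑ i, F (J i) = ∑ l ∈ Finset.univ.map ⟨J, hJ⟩, F l := by
                  rw [Finset.sum_map]
                  rfl
                have h2 : ∑ l : {l : Fin d // l ∉ range J}, F l =
                    ∑ l ∈ (Finset.univ.map ⟨J, hJ⟩)ᶜ, F l := by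
                  rw [Finset.sum_subtype (p := fun l => l ∉ range J)]
                  intro l
                  simp
                rw [h1, h2, Finset.sum_compl_add_sum]
              rw [← e4 (fun l => X (jn, l) * X (Fin.castLE hjn.le s, l)), add_comm]
              congr 1
              · exact Finset.sum_congr rfl fun l _ => mul_comm _ _
              · exact Finset.sum_congr rfl fun l _ => mul_comm _ _
            rw [e3]
            refine Ideal.sum_mem _ fun s _ => Ideal.mul_mem_left _ _ (Ideal.subset_span ?_)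
            refine ⟨jn, Fin.castLE hjn.le s, (hrow s).symm, by simp [jn], ?_, rfl⟩
            rw [Fin.val_castLE]
            have := s.2
            omega
          have : Δ ^ (N1 + 1) * (f * X (jn, J t)) - g1 * h =
              (Δ ^ N1 * f) * (Δ * X (jn, J t) - h) + h * (Δ ^ N1 * f - g1) := by ring
          rw [this]
          exact Ideal.add_mem _ (Ideal.mul_mem_left _ _ key) (Ideal.mul_mem_left _ _ h1')
      · refine ⟨N1, g1 * X p, ?_, ?_⟩
        · rw [map_mul, map_mul, h1]
          congr 1
          by_cases hp1 : p.1 = jn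
          · have hp2 : p.2 ∉ range J := fun h => hp ⟨hp1, h⟩
            have hpe : p = (jn, p.2) := Prod.ext hp1 rfl
            rw [hpe]
            exact ψX2 _ hp2
          · exact ψX1 _ hp1
        · have : Δ ^ N1 * (f * X p) - g1 * X p = X p * (Δ ^ N1 * f - g1) := by ring
          rw [this]
          exact Ideal.mul_mem_left _ _ h1'
  intro f
  constructor
  · intro hf
    obtain ⟨N, g, hg, hg'⟩ := helim f
    refine ⟨N, ?_⟩
    have h1 : ψ g = 0 := by
      have h2 := hI hg'
      rw [RingHom.mem_ker, map_sub, map_mul, (RingHom.mem_ker.1 hf), mul_zero, zero_sub,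
        neg_eq_zero] at h2
      exact h2
    rw [hg] at h1
    have h3 : g ∈ P := by
      rw [← hkerι]
      exact h1
    have h4 : g ∈ (rowIdeal k d (j + 1) : Ideal S) := rowIdeal_mono k d (Nat.le_succ j) h3
    have := Ideal.add_mem _ hg' h4
    simpa using this
  · rintro ⟨N, hN⟩
    have h1 := hI hN
    rw [RingHom.mem_ker, map_mul, map_pow, ψdet J] at h1
    rcases mul_eq_zero.1 h1 with h | h
    · exact absurd h (pow_ne_zero N hΔ)
    · exact h

/-- If every associated prime of `rowIdeal (j+1)` misses some minor of the first `j` rows,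
and `rowIdeal j` is prime, then `rowIdeal (j+1)` is prime. -/
lemma prime_step {j : ℕ} (hjn : j < n) (hjd : j ≤ d)
    (hP : (rowIdeal k d j : Ideal (MvPolynomial (Fin n × Fin d) k)).IsPrime)
    (hass : ∀ q : Ideal (MvPolynomial (Fin n × Fin d) k), q.IsPrime →
      (∃ x, ∀ s, s ∈ q ↔ s * x ∈ rowIdeal k d (j + 1)) →
      ∃ J : Fin j → Fin d, Function.Injective J ∧ (minorMat k d hjn.le J).det ∉ q) :
    (rowIdeal k d (j + 1) : Ideal (MvPolynomial (Fin n × Fin d) k)).IsPrime := by
  classical
  let J0 : Fin j → Fin d := Fin.castLE hjd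
  have hJ0 : Function.Injective J0 := Fin.castLE_injective hjd
  obtain ⟨Q, hQ, ι, ψ, hι, -, -, hψ⟩ := exists_elim hjn hP J0 hJ0
  have hker : (rowIdeal k d (j + 1) : Ideal (MvPolynomial (Fin n × Fin d) k)) =
      RingHom.ker ψ := by
    apply le_antisymm
    · intro f hf
      rw [hψ]
      exact ⟨0, by simpa using hf⟩
    · intro f hf
      obtain ⟨N, hN⟩ := (hψ f).1 hf
      by_contra hfI
      obtain ⟨q, hq, hΔq, x, hx⟩ := exists_prime_colon _ _ _ hN hfI
      obtain ⟨J, hJ, hJq⟩ := hass q hq ⟨x, hx⟩
      obtain ⟨Q', hQ', ι', ψ', hι', -, hψdet, hψ'⟩ := exists_elim hjn hP J hJ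
      have h1 : (minorMat k d hjn.le J0).det ∈ q := hq.mem_of_pow_mem N hΔq
      have hxker : x ∉ RingHom.ker ψ' := by
        intro hxk
        obtain ⟨N', hN'⟩ := (hψ' x).1 hxk
        exact hJq (hq.mem_of_pow_mem N' ((hx _).2 hN'))
      have h2 : q ≤ RingHom.ker ψ' := by
        intro g hg
        have h3 : g * x ∈ RingHom.ker ψ' := by
          rw [hψ']
          exact ⟨0, by simpa using (hx g).1 hg⟩
        rw [RingHom.mem_ker, map_mul] at h3
        rcases mul_eq_zero.1 h3 with h | h
        · exact h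
        · exact absurd h hxker
      have h4 := h2 h1
      rw [RingHom.mem_ker, hψdet J0] at h4
      have h5 : (minorMat k d hjn.le J0).det ∈ RingHom.ker ι' := h4
      rw [hι'] at h5
      exact det_notMem hjn.le J0 hJ0 h5
  rw [hker]
  exact RingHom.ker_isPrime ψ

end

end Pool.Agent.H.MP_0e620a_ag
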