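import Pool.Agent.H.MP_0e620a_ag.Point

/-!
# Non-primality below the threshold, and the final equivalence
-/

open Set MvPolynomial

namespace Pool.Agent.H.MP_0e620a_ag

universe u v w

section

variable {K : Type v} [Field K]

lemma linearIndependent_of_dot_ne {κ β : Type} [Fintype κ] [Fintype β] (x : κ → β → K)
    (hx : ∀ i, ∑ l, x i l * x i l ≠ 0) (hxx : ∀ i j, i ≠ j → ∑ l, x i l * x j l = 0) :
    LinearIndependent K x := by
  classical
  rw [Fintype.linearIndependent_iff]
  intro g hg a
  have h2 : ∑ l, (∑ i, g i • x i) l * x a l = 0 := by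
    rw [hg]; simp
  simp only [Finset.sum_apply, Pi.smul_apply, smul_eq_mul, Finset.sum_mul] at h2
  rw [Finset.sum_comm] at h2
  rw [Finset.sum_eq_single a] at h2
  · simp only [mul_assoc] at h2
    rw [← Finset.mul_sum] at h2
    exact (mul_eq_zero.1 h2).resolve_right (hx a)
  · intro b _ hb
    simp only [mul_assoc]
    rw [← Finset.mul_sum, hxx _ _ hb, mul_zero]
  · simp

end

section

variable {k : Type u} [Field k]

/-- dimension bound for a prime `rowIdeal` when `n ≤ d` -/
lemma ncard_le_of_prime {n d : ℕ} (hnd : n ≤ d)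
    (hP : (rowIdeal k d n : Ideal (MvPolynomial (Fin n × Fin d) k)).IsPrime)
    (B : Set (Fin n × Fin d))
    (hB : AlgebraicIndepOn k (fun p => Ideal.Quotient.mk
      (rowIdeal k d n : Ideal (MvPolynomial (Fin n × Fin d) k)) (X p)) B) :
    2 * B.ncard + n * n ≤ 2 * n * d + n := by
  classical
  let S := MvPolynomial (Fin n × Fin d) k
  let P : Ideal S := rowIdeal k d n
  have : P.IsPrime := hP
  let K := FractionRing (S ⧸ P)
  let φ : S →ₐ[k] K := (IsScalarTower.toAlgHom k (S ⧸ P) K).comp (Ideal.Quotient.mkₐ k P)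
  have hφker : ∀ f, φ f = 0 ↔ f ∈ P := by
    intro f
    change algebraMap (S ⧸ P) K (Ideal.Quotient.mk P f) = 0 ↔ _
    rw [IsFractionRing.to_map_eq_zero_iff, Ideal.Quotient.eq_zero_iff_mem]
  let y : Fin n → Fin d → K := fun s l => φ (X (s, l))
  have horth : ∀ i j, i ≠ j → ∑ l, y i l * y j l = 0 := by
    intro i j hij
    have h1 : φ (edgePoly k d i j) = 0 := by
      rw [hφker]
      exact Ideal.subset_span ⟨i, j, hij, i.2, j.2, rfl⟩
    rw [← h1, edgePoly, map_sum]
    exact Finset.sum_congr rfl fun l _ => by rw [map_mul]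
  have hdet : φ (minorMat k d le_rfl (Fin.castLE hnd)).det ≠ 0 := by
    rw [ne_eq, hφker]
    exact det_notMem le_rfl _ (Fin.castLE_injective hnd)
  rw [AlgHom.map_det] at hdet
  have hli : LinearIndependent K y := by
    have h3 := Matrix.linearIndependent_rows_iff_isUnit.2
      ((Matrix.isUnit_iff_isUnit_det _).2 (isUnit_iff_ne_zero.2 hdet))
    rw [Fintype.linearIndependent_iff] at h3 ⊢
    intro c hc i
    apply h3 c
    funext l
    have h4 := congrFun hc (Fin.castLE hnd l)
    simp only [Finset.sum_apply, Pi.smul_apply, smul_eq_mul, Pi.zero_apply, Matrix.row,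
      AlgHom.mapMatrix_apply, Matrix.map_apply, minorMat] at h4 ⊢
    exact h4
  obtain ⟨ρ, hρ, hρ2⟩ := rk_independent k y hli horth Finset.univ
  rw [Finset.card_univ, Fintype.card_fin] at hρ2
  let v : Fin n × Fin d → K := fun p => φ (X p)
  have hBK : AlgebraicIndependent k (fun b : B => v b) := by
    have h9 := hB.map' (f := IsScalarTower.toAlgHom k (S ⧸ P) K)
      (IsFractionRing.injective (S ⧸ P) K)
    exact h9
  have hBind : (AlgebraicIndependent.matroid k K).Indep (range (fun b : B => v b)) := by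
    rw [AlgebraicIndependent.matroid_indep_iff]
    exact (algebraicIndependent_subtype_range hBK.injective).2 hBK
  have hBcard : (range (fun b : B => v b)).encard = B.encard := by
    rw [← image_univ, hBK.injective.encard_image, encard_univ]
    rfl
  have hBsub : range (fun b : B => v b) ⊆ ⋃ i ∈ (Finset.univ : Finset (Fin n)), range (y i) := by
    rintro _ ⟨⟨⟨a, l⟩, hb⟩, rfl⟩
    simp only [mem_iUnion, mem_range]
    exact ⟨a, Finset.mem_univ _, l, rfl⟩
  have hBle : B.encard ≤ ((ρ : ℕ) : ℕ∞) := by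
    rw [← hBcard]
    exact (hBind.encard_le_eRk_of_subset hBsub).trans hρ
  have hBle' : B.ncard ≤ ρ := by
    have h10 : B.Finite := Set.toFinite B
    rw [← h10.cast_ncard_eq] at hBle
    exact_mod_cast hBle
  nlinarith

lemma not_prime_of_le {n d : ℕ} (hn : 2 ≤ n) (hnd : n ≤ d) (hd : d < primeThreshold n) :
    ¬ (rowIdeal k d n : Ideal (MvPolynomial (Fin n × Fin d) k)).IsPrime := by
  intro hP
  -- reduce to a single numerical inequality
  have key : ∀ r s n0 a : ℕ, r ≤ s → a ≤ 1 → r < n0 → n = n0 + a → d = r + s →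
      2 * n * d + n + (r * r + r) ≤ 2 * r * s + 2 * n0 * r + 2 * a * s + n * n → False := by
    intro r s n0 a hrs ha hr hn0 hds hineq
    obtain ⟨Q, B, hQ, hPQ, hdet, hB, hcard⟩ :=
      exists_big_prime (k := k) hrs ha hr hn0 hds hnd
    have hPQ' := eq_of_indep _ Q hP hPQ B hB (by
      intro B' hB'
      have h1 := ncard_le_of_prime hnd hP B' hB'
      omega)
    rw [← hPQ'] at hdet
    exact det_notMem le_rfl _ (Fin.castLE_injective hnd) hdet
  rcases Nat.even_or_odd' d with ⟨r, hr | hr⟩
  · subst hr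
    obtain ⟨h1, h2⟩ := num_even hn hd hnd
    refine key r r n 0 le_rfl (by omega) h1 (by omega) (by omega) ?_
    have e : r ≤ r * r + 2 * n * r + n * n := by nlinarith
    have h3 : 2 * n * (2 * r) + n + r ≤ r * r + 2 * n * r + n * n := by omega
    nlinarith
  · subst hr
    obtain ⟨h1, h2⟩ := num_odd hn hd hnd
    refine key r (r + 1) (n - 1) 1 (by omega) (by omega) (by omega) (by omega) (by omega) ?_
    nlinarith

lemma not_prime_of_gt {n d : ℕ} (hd : 1 ≤ d) (hnd : d < n) :
    ¬ (rowIdeal k d n : Ideal (MvPolynomial (Fin n × Fin d) k)).IsPrime := by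
  classical
  intro hP
  let S := MvPolynomial (Fin n × Fin d) k
  let P : Ideal S := rowIdeal k d n
  have : P.IsPrime := hP
  let K := FractionRing (S ⧸ P)
  let φ : S →ₐ[k] K := (IsScalarTower.toAlgHom k (S ⧸ P) K).comp (Ideal.Quotient.mkₐ k P)
  have hφker : ∀ f, φ f = 0 ↔ f ∈ P := by
    intro f
    change algebraMap (S ⧸ P) K (Ideal.Quotient.mk P f) = 0 ↔ _
    rw [IsFractionRing.to_map_eq_zero_iff, Ideal.Quotient.eq_zero_iff_mem]
  let y : Fin n → Fin d → K := fun s l => φ (X (s, l))
  have hφe : ∀ i j, φ (edgePoly k d i j) = ∑ l, y i l * y j l := by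
    intro i j
    rw [edgePoly, map_sum]
    exact Finset.sum_congr rfl fun l _ => by rw [map_mul]
  have horth : ∀ i j, i ≠ j → ∑ l, y i l * y j l = 0 := by
    intro i j hij
    rw [← hφe, hφker]
    exact Ideal.subset_span ⟨i, j, hij, i.2, j.2, rfl⟩
  have hex : ∃ i, ∑ l, y i l * y i l = 0 := by
    by_contra hne
    push Not at hne
    have hli : LinearIndependent K y := linearIndependent_of_dot_ne y hne horth
    have h3 := hli.fintype_card_le_finrank
    rw [Module.finrank_fintype_fun_eq_card, Fintype.card_fin, Fintype.card_fin] at h3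
    omega
  obtain ⟨i, hi⟩ := hex
  rw [← hφe, hφker] at hi
  let ev : MvPolynomial (Fin n × Fin d) k →+* k :=
    (MvPolynomial.aeval (fun p : Fin n × Fin d =>
      if p.1 = i ∧ (p.2 : ℕ) = 0 then (1 : k) else 0)).toRingHom
  have hev : ∀ p, ev (X p) = if p.1 = i ∧ (p.2 : ℕ) = 0 then (1 : k) else 0 := by
    intro p
    exact MvPolynomial.aeval_X _ p
  have h1 : P ≤ RingHom.ker ev := by
    change (rowIdeal k d n : Ideal S) ≤ _
    rw [rowIdeal, Ideal.span_le]
    rintro f ⟨s, t, hst, hs, ht, rfl⟩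
    rw [SetLike.mem_coe, RingHom.mem_ker, edgePoly, map_sum]
    apply Finset.sum_eq_zero
    intro l _
    rw [map_mul, hev, hev]
    by_cases h2 : s = i
    · have h3 : ¬ (t = i ∧ (l : ℕ) = 0) := fun h => hst (h2.trans h.1.symm)
      simp only [if_neg h3, mul_zero]
    · have h3 : ¬ (s = i ∧ (l : ℕ) = 0) := fun h => h2 h.1
      simp only [if_neg h3, zero_mul]
  have h2 := h1 hi
  rw [RingHom.mem_ker, edgePoly, map_sum, Finset.sum_eq_single (⟨0, hd⟩ : Fin d)] at h2
  · rw [map_mul, hev, if_pos ⟨rfl, rfl⟩, mul_one] at h2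
    exact one_ne_zero h2
  · intro l _ hl
    rw [map_mul, hev, if_neg, zero_mul]
    rintro ⟨-, h⟩
    exact hl (Fin.ext h)
  · simp

/-- The equivalence for the ideals `rowIdeal`. -/
theorem prime_iff {n d : ℕ} (hn : 2 ≤ n) (hd : 1 ≤ d) :
    (rowIdeal k d n : Ideal (MvPolynomial (Fin n × Fin d) k)).IsPrime ↔
      primeThreshold n ≤ d := by
  constructor
  · intro hP
    by_contra h
    push Not at h
    rcases le_or_gt n d with h1 | h1
    · exact not_prime_of_le hn h1 h hP
    · exact not_prime_of_gt hd h1 hP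
  · intro h
    have h1 := threshold_ge hn
    exact (prime_of_good (good_of_threshold hn h) (by omega) n le_rfl).2

end

end Pool.Agent.H.MP_0e620a_ag
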