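import Pool.Agent.H.MP_0e620a_ag.Final

/-!
# The closed formula for the threshold
-/

namespace Pool.Agent.H.MP_0e620a_ag

lemma formula_eq {n : ℕ} (hn : 2 ≤ n) :
    2 * n - ⌊(√(8 * (n : ℝ) - 7) - 1) / 2⌋₊ - ⌈(√(8 * (n : ℝ) - 7) - 1) / 2⌉₊ =
      primeThreshold n := by
  obtain ⟨p, hp1, hpn, h1, h2, h3⟩ := threshold_cases hn
  obtain ⟨m, rfl⟩ : ∃ m, n = m + 1 := ⟨n - 1, by omega⟩
  rw [Nat.add_sub_cancel] at h1 h2 h3
  have h1' : (p : ℝ) * (p + 1) ≤ 2 * m := by exact_mod_cast h1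
  have h2' : (2 : ℝ) * m < (p + 1) * (p + 2) := by exact_mod_cast h2
  have hx : (√(8 * (((m + 1 : ℕ) : ℝ)) - 7) - 1) / 2 = (√(8 * (m : ℝ) + 1) - 1) / 2 := by
    congr 3
    push_cast
    ring
  rw [hx]
  have hlow : (p : ℝ) ≤ (√(8 * (m : ℝ) + 1) - 1) / 2 := by
    have : (2 * p + 1 : ℝ) ≤ √(8 * (m : ℝ) + 1) := by
      apply Real.le_sqrt_of_sq_le
      nlinarith
    linarith
  have hup : (√(8 * (m : ℝ) + 1) - 1) / 2 < p + 1 := by
    have : √(8 * (m : ℝ) + 1) < 2 * p + 3 := by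
      rw [Real.sqrt_lt' (by positivity)]
      nlinarith
    linarith
  have hfloor : ⌊(√(8 * (m : ℝ) + 1) - 1) / 2⌋₊ = p := by
    rw [Nat.floor_eq_iff (le_trans (by positivity) hlow)]
    exact ⟨hlow, hup⟩
  rw [hfloor]
  rcases h3 with ⟨h3, h4⟩ | ⟨h3, h4⟩
  · have h3' : (p : ℝ) * (p + 1) = 2 * m := by exact_mod_cast h3
    have : (√(8 * (m : ℝ) + 1) - 1) / 2 = p := by
      have : √(8 * (m : ℝ) + 1) = 2 * p + 1 := by
        rw [Real.sqrt_eq_iff_eq_sq (by positivity) (by positivity)]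
        nlinarith
      linarith
    rw [this, Nat.ceil_natCast, h4]
    omega
  · have h3' : (p : ℝ) * (p + 1) + 2 ≤ 2 * m := by exact_mod_cast h3
    have hlow' : (p : ℝ) < (√(8 * (m : ℝ) + 1) - 1) / 2 := by
      have : (2 * p + 1 : ℝ) < √(8 * (m : ℝ) + 1) := by
        apply Real.lt_sqrt_of_sq_lt
        nlinarith
      linarith
    have hceil : ⌈(√(8 * (m : ℝ) + 1) - 1) / 2⌉₊ = p + 1 := by
      rw [Nat.ceil_eq_iff (by omega)]
      refine ⟨?_, ?_⟩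
      · rw [Nat.add_sub_cancel]
        exact hlow'
      · push_cast
        exact hup.le
    rw [hceil, h4]
    omega

end Pool.Agent.H.MP_0e620a_ag
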