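import Pool.Agent.H.MP_0e620a_ag.NonPrime

/-!
# The variety `M Mᵀ = -1`
-/

open Set MvPolynomial RingTheory.Sequence

namespace Pool.Agent.H.MP_0e620a_ag

universe u v w

section

variable {K : Type v} [Field K]

lemma linearIndependent_of_dot {κ β : Type} [Fintype κ] [Fintype β] (x : κ → β → K)
    (hx : ∀ i, ∑ l, x i l * x i l = -1) (hxx : ∀ i j, i ≠ j → ∑ l, x i l * x j l = 0) :
    LinearIndependent K x := by
  classical
  rw [Fintype.linearIndependent_iff]
  intro g hg a
  have h2 : ∑ l, (∑ i, g i • x i) l * x a l = 0 := by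
    rw [hg]; simp
  simp only [Finset.sum_apply, Pi.smul_apply, smul_eq_mul, Finset.sum_mul] at h2
  rw [Finset.sum_comm] at h2
  rw [Finset.sum_eq_single a] at h2
  · simp only [mul_assoc] at h2
    rw [← Finset.mul_sum, hx] at h2
    simpa using h2
  · intro b _ hb
    simp only [mul_assoc]
    rw [← Finset.mul_sum, hxx _ _ hb, mul_zero]
  · simp

end

section

variable {k : Type u} {K : Type v} [Field k] [Field K] [Algebra k K]

/-- rank of the first `j + 1` rows for partially orthonormal rows -/
lemma rk_rows_partial {r s j : ℕ} (hj : j < r) (i : ℕ) (hij : i ≤ j + 1)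
    (y : Fin r → Fin s → K)
    (hdot : ∀ a b : Fin r, (b : ℕ) ≤ a → (a : ℕ) < j →
      ∑ l, y a l * y b l + (if (a : ℕ) = b then 1 else 0) = 0)
    (hdotj : ∀ b : Fin r, (b : ℕ) < i →
      ∑ l, y ⟨j, hj⟩ l * y b l + (if j = (b : ℕ) then 1 else 0) = 0) :
    ∃ ρ2 : ℕ, rk k ((⋃ a : Fin j, range (y (Fin.castLE hj.le a))) ∪ range (y ⟨j, hj⟩)) ≤ ρ2 ∧
      2 * ρ2 + 2 * i + j * (j + 1) = 2 * j * s + 2 * s := by
  classical
  let x : Fin j → Fin s → K := fun s => y (Fin.castLE hj.le s)
  have hx1 : ∀ a, ∑ l, x a l * x a l = -1 := by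
    intro a
    have := hdot (Fin.castLE hj.le a) (Fin.castLE hj.le a) le_rfl (by simp)
    rw [if_pos rfl] at this
    exact eq_neg_of_add_eq_zero_left this
  have hx0 : ∀ a b, a ≠ b → ∑ l, x a l * x b l = 0 := by
    intro a b hab
    have hab' : (a : ℕ) ≠ b := fun h => hab (Fin.ext h)
    rcases lt_or_gt_of_ne hab' with h | h
    · have := hdot (Fin.castLE hj.le b) (Fin.castLE hj.le a) (by simpa using h.le) (by simp)
      rw [if_neg (by simpa using hab'.symm), add_zero] at this
      rw [← this]
      exact Finset.sum_congr rfl fun l _ => mul_comm _ _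
    · have := hdot (Fin.castLE hj.le a) (Fin.castLE hj.le b) (by simpa using h.le) (by simp)
      rw [if_neg (by simpa using hab'), add_zero] at this
      exact this
  have hxli : LinearIndependent K x := linearIndependent_of_dot x hx1 hx0
  obtain ⟨ρ1, hρ1, hρ1'⟩ := rk_orthonormal k x hx1 hx0 Finset.univ
  rw [Finset.card_univ, Fintype.card_fin, Fintype.card_fin] at hρ1'
  let T : Set K := ⋃ i ∈ (Finset.univ : Finset (Fin j)), range (x i)
  have hT : ∀ a l, x a l ∈ IntermediateField.adjoin k T := by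
    intro a l
    apply IntermediateField.subset_adjoin
    simp only [T, mem_iUnion, mem_range]
    exact ⟨a, Finset.mem_univ _, l, rfl⟩
  have hlast : ∃ ρ2 : ℕ, rk k (T ∪ range (y ⟨j, hj⟩)) ≤ ρ2 ∧ ρ2 + i = ρ1 + s := by
    by_cases hi : i = j + 1
    · have h1 := rk_row_quad k T (y ⟨j, hj⟩) x hT hxli (by
        intro a
        have := hdotj (Fin.castLE hj.le a) (by simp; omega)
        rw [if_neg (by simp; omega), add_zero] at this
        rw [← this]
        exact Finset.sum_congr rfl fun l _ => mul_comm _ _) (by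
        have := hdotj ⟨j, hj⟩ (by simp; omega)
        rw [if_pos rfl] at this
        exact eq_neg_of_add_eq_zero_left this)
      rw [Fintype.card_fin, Fintype.card_fin] at h1
      rw [hi]
      exact rk_step k h1 hρ1
    · have hij' : i ≤ j := by omega
      have h1 := rk_row k T (y ⟨j, hj⟩) (fun a : Fin i => x (Fin.castLE hij' a))
        (fun a l => hT _ l) (hxli.comp _ (Fin.castLE_injective hij')) (by
        intro a
        have := hdotj (Fin.castLE hj.le (Fin.castLE hij' a)) (by simp)
        rw [if_neg (by simp; omega), add_zero] at this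
        rw [← this]
        exact Finset.sum_congr rfl fun l _ => mul_comm _ _)
      rw [Fintype.card_fin, Fintype.card_fin] at h1
      exact rk_step k h1 hρ1
  obtain ⟨ρ2, hρ2, hρ2'⟩ := hlast
  refine ⟨ρ2, ?_, by nlinarith⟩
  have hTe : T = ⋃ a : Fin j, range (y (Fin.castLE hj.le a)) := by
    simp [T, x]
  rw [← hTe]
  exact hρ2

end

section

variable {k : Type u} [Field k]

variable (k) in
/-- `g_{ij} = Σ_l x_{il} x_{jl} + δ_{ij}` with natural number indices -/
noncomputable def gP (r s : ℕ) (i j : ℕ) : MvPolynomial (Fin r × Fin s) k :=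
  if h : i < r ∧ j < r then
    ∑ l : Fin s, X (⟨i, h.1⟩, l) * X (⟨j, h.2⟩, l) + (if i = j then 1 else 0) else 0

variable (k) in
noncomputable def gRl (r s j i : ℕ) : List (MvPolynomial (Fin r × Fin s) k) :=
  (List.range i).map (gP k r s j)

variable (k) in
noncomputable def gEl (r s : ℕ) : ℕ → List (MvPolynomial (Fin r × Fin s) k)
  | 0 => []
  | j + 1 => gEl r s j ++ gRl k r s j (j + 1)

lemma length_gEl (r s j : ℕ) : 2 * (gEl k r s j).length = j * j + j := by
  induction j with
  | zero => simp [gEl]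
  | succ j ih =>
    simp only [gEl, List.length_append, gRl, List.length_map, List.length_range]
    nlinarith

lemma mem_gRl {r s j i : ℕ} {f : MvPolynomial (Fin r × Fin s) k} :
    f ∈ gRl k r s j i ↔ ∃ t < i, gP k r s j t = f := by
  simp [gRl]

lemma mem_gEl {r s j : ℕ} {f : MvPolynomial (Fin r × Fin s) k} :
    f ∈ gEl k r s j ↔ ∃ i t, t ≤ i ∧ i < j ∧ gP k r s i t = f := by
  induction j with
  | zero => simp [gEl]
  | succ j ih =>
    rw [gEl, List.mem_append, ih, mem_gRl]
    constructor
    · rintro (⟨i, t, h1, h2, rfl⟩ | ⟨t, h1, rfl⟩)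
      · exact ⟨i, t, h1, by omega, rfl⟩
      · exact ⟨j, t, by omega, by omega, rfl⟩
    · rintro ⟨i, t, h1, h2, rfl⟩
      by_cases h : i < j
      · exact Or.inl ⟨i, t, h1, h, rfl⟩
      · have : i = j := by omega
        subst this
        exact Or.inr ⟨t, by omega, rfl⟩

lemma g_bound {r s j : ℕ} (hj : j < r) (i : ℕ) (hij : i ≤ j + 1)
    (q : Ideal (MvPolynomial (Fin r × Fin s) k)) (hq : q.IsPrime)
    (hq1 : ∀ f ∈ gEl k r s j, f ∈ q) (hq2 : ∀ f ∈ gRl k r s j i, f ∈ q)
    (B : Set (Fin r × Fin s))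
    (hB : AlgebraicIndepOn k (fun p => Ideal.Quotient.mk q (X p)) B) :
    2 * B.ncard + j * j + j + 2 * i ≤ 2 * r * s := by
  classical
  let S := MvPolynomial (Fin r × Fin s) k
  let K := FractionRing (S ⧸ q)
  let φ : S →ₐ[k] K := (IsScalarTower.toAlgHom k (S ⧸ q) K).comp (Ideal.Quotient.mkₐ k q)
  have hφker : ∀ f, φ f = 0 ↔ f ∈ q := by
    intro f
    change algebraMap (S ⧸ q) K (Ideal.Quotient.mk q f) = 0 ↔ _
    rw [IsFractionRing.to_map_eq_zero_iff, Ideal.Quotient.eq_zero_iff_mem]
  let y : Fin r → Fin s → K := fun s l => φ (X (s, l))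
  have hφg : ∀ a b : Fin r, φ (gP k r s a b) =
      ∑ l, y a l * y b l + (if (a : ℕ) = b then 1 else 0) := by
    intro a b
    rw [gP, dif_pos ⟨a.2, b.2⟩, map_add, map_sum]
    congr 1
    · simp [y]
    · split_ifs <;> simp
  have hdot : ∀ a b : Fin r, (b : ℕ) ≤ a → (a : ℕ) < j →
      ∑ l, y a l * y b l + (if (a : ℕ) = b then 1 else 0) = 0 := by
    intro a b h1 h2
    rw [← hφg, hφker]
    exact hq1 _ (mem_gEl.2 ⟨a, b, h1, h2, rfl⟩)
  have hdotj : ∀ b : Fin r, (b : ℕ) < i →
      ∑ l, y ⟨j, hj⟩ l * y b l + (if j = (b : ℕ) then 1 else 0) = 0 := by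
    intro b hb
    have := hφg ⟨j, hj⟩ b
    simp only at this
    rw [← this, hφker]
    exact hq2 _ (mem_gRl.2 ⟨b, hb, rfl⟩)
  obtain ⟨ρ2, hρ2, hρ2'⟩ := rk_rows_partial (k := k) hj i hij y hdot hdotj
  let Rest : Set K := range (fun p : {a : Fin r // j < (a : ℕ)} × Fin s => y p.1 p.2)
  have hRest : Rest.encard ≤ (((r - j - 1) * s : ℕ) : ℕ∞) := by
    have h7 : Fintype.card {a : Fin r // j < (a : ℕ)} = r - j - 1 := by
      rw [Fintype.card_subtype]
      have : (Finset.univ.filter fun a : Fin r => j < (a : ℕ)) =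
          Finset.univ.filter fun a : Fin r => ¬ ((a : ℕ) < j + 1) := by
        ext a
        simp only [Finset.mem_filter, Finset.mem_univ, true_and]
        omega
      rw [this, Finset.filter_not, Finset.card_sdiff_of_subset (Finset.filter_subset _ _),
        Fin.card_filter_val_lt, Finset.card_univ, Fintype.card_fin]
      omega
    have h8 : (((r - j - 1) * s : ℕ) : ℕ∞) =
        (Fintype.card ({a : Fin r // j < (a : ℕ)} × Fin s) : ℕ∞) := by
      rw [Fintype.card_prod, h7, Fintype.card_fin]
    rw [h8, ← ENat.card_eq_coe_fintype_card, ← Set.encard_univ]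
    have : Rest = (fun p : {a : Fin r // j < (a : ℕ)} × Fin s => y p.1 p.2) '' univ :=
      image_univ.symm
    rw [this]
    exact Set.encard_image_le _ _
  let v : Fin r × Fin s → K := fun p => φ (X p)
  have hBK : AlgebraicIndependent k (fun b : B => v b) := by
    have h9 := hB.map' (f := IsScalarTower.toAlgHom k (S ⧸ q) K)
      (IsFractionRing.injective (S ⧸ q) K)
    exact h9
  have hBind : (AlgebraicIndependent.matroid k K).Indep (range (fun b : B => v b)) := by
    rw [AlgebraicIndependent.matroid_indep_iff]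
    exact (algebraicIndependent_subtype_range hBK.injective).2 hBK
  have hBcard : (range (fun b : B => v b)).encard = B.encard := by
    rw [← image_univ, hBK.injective.encard_image, encard_univ]
    rfl
  have hBsub : range (fun b : B => v b) ⊆
      ((⋃ a : Fin j, range (y (Fin.castLE hj.le a))) ∪ range (y ⟨j, hj⟩)) ∪ Rest := by
    rintro _ ⟨⟨⟨a, l⟩, hb⟩, rfl⟩
    rcases lt_trichotomy (a : ℕ) j with h | h | h
    · refine Or.inl (Or.inl ?_)
      simp only [mem_iUnion, mem_range]
      exact ⟨⟨a, h⟩, l, rfl⟩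
    · refine Or.inl (Or.inr ⟨l, ?_⟩)
      have : a = ⟨j, hj⟩ := Fin.ext h
      change y ⟨j, hj⟩ l = y a l
      rw [this]
    · exact Or.inr ⟨(⟨a, h⟩, l), rfl⟩
  have hBle : B.encard ≤ ((ρ2 + (r - j - 1) * s : ℕ) : ℕ∞) := by
    rw [← hBcard]
    refine (hBind.encard_le_eRk_of_subset hBsub).trans ?_
    refine (rk_union_le k _ _).trans ?_
    push_cast at hRest ⊢
    gcongr
  have hBle' : B.ncard ≤ ρ2 + (r - j - 1) * s := by
    have h10 : B.Finite := Set.toFinite B
    rw [← h10.cast_ncard_eq] at hBle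
    exact_mod_cast hBle
  obtain ⟨e, rfl⟩ : ∃ e, r = j + 1 + e := ⟨r - j - 1, by omega⟩
  have e1 : j + 1 + e - j - 1 = e := by omega
  rw [e1] at hBle'
  nlinarith

lemma g_regular {r s : ℕ} (j : ℕ) (hj : j ≤ r) :
    IsWeaklyRegular (MvPolynomial (Fin r × Fin s) k) (gEl k r s j) := by
  induction j with
  | zero => exact IsWeaklyRegular.nil _ _
  | succ j ih =>
    have hreg := ih (by omega)
    have : ∀ i ≤ j + 1, IsWeaklyRegular (MvPolynomial (Fin r × Fin s) k)
        (gEl k r s j ++ gRl k r s j i) := by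
      intro i hi
      induction i with
      | zero => simpa [gRl] using hreg
      | succ i ih2 =>
        have h1 : gEl k r s j ++ gRl k r s j (i + 1) =
            (gEl k r s j ++ gRl k r s j i) ++ [gP k r s j i] := by
          simp [gRl, List.range_succ]
        rw [h1]
        refine concat_of_bound _ _ (ih2 (by omega)) ?_
        intro q hq hlq hfq B hB
        have hcard : Nat.card (Fin r × Fin s) = r * s := by simp
        have h2 := g_bound (by omega) (i + 1) hi q hq
          (fun f hf => hlq f (List.mem_append_left _ hf)) (by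
            intro f hf
            obtain ⟨t, ht, rfl⟩ := mem_gRl.1 hf
            by_cases hti : t < i
            · exact hlq _ (List.mem_append_right _ (mem_gRl.2 ⟨t, hti, rfl⟩))
            · have : t = i := by omega
              rw [this]
              exact hfq) B hB
        have h3 := length_gEl (k := k) r s j
        rw [hcard, List.length_append, gRl, List.length_map, List.length_range]
        nlinarith
    exact this (j + 1) le_rfl

/-- existence of a large prime containing `M Mᵀ + 1` -/
lemma exists_isotropic_prime {r s : ℕ} (hrs : r ≤ s) :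
    ∃ (p : Ideal (MvPolynomial (Fin r × Fin s) k)) (B : Set (Fin r × Fin s)), p.IsPrime ∧
      (∀ i j : Fin r, ∑ l : Fin s, X (i, l) * X (j, l) + (if i = j then 1 else 0) ∈ p) ∧
      AlgebraicIndepOn k (fun i => Ideal.Quotient.mk p (X i)) B ∧
      2 * r * s ≤ r * r + r + 2 * B.ncard := by
  classical
  have hne : (1 : MvPolynomial (Fin r × Fin s) k) ∉ Ideal.ofList (gEl k r s r) := by
    intro h1
    obtain ⟨I, hI⟩ := IsAlgClosed.exists_pow_nat_eq (-1 : AlgebraicClosure k) (n := 2) (by norm_num)
    let ev : MvPolynomial (Fin r × Fin s) k →+* AlgebraicClosure k :=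
      (MvPolynomial.aeval (fun p : Fin r × Fin s => if (p.1 : ℕ) = p.2 then I else 0)).toRingHom
    have hev : ∀ p, ev (X p) = if (p.1 : ℕ) = p.2 then I else 0 := by
      intro p
      exact MvPolynomial.aeval_X _ p
    have h2 : Ideal.ofList (gEl k r s r) ≤ RingHom.ker ev := by
      rw [Ideal.span_le]
      intro f hf
      obtain ⟨i, t, h1, h2, rfl⟩ := mem_gEl.1 hf
      rw [SetLike.mem_coe, RingHom.mem_ker, gP, dif_pos ⟨h2, by omega⟩, map_add, map_sum]
      by_cases hit : i = t
      · subst hit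
        rw [if_pos rfl, map_one, Finset.sum_eq_single (⟨i, by omega⟩ : Fin s)]
        · rw [map_mul, hev, if_pos rfl, ← sq, hI]
          ring
        · intro b _ hb
          rw [map_mul, hev, if_neg, zero_mul]
          intro h
          exact hb (Fin.ext h.symm)
        · simp
      · rw [if_neg hit, map_zero, add_zero]
        apply Finset.sum_eq_zero
        intro l _
        rw [map_mul, hev, hev]
        by_cases h3 : i = (l : ℕ)
        · have h4 : ¬ (t = (l : ℕ)) := fun h => hit (h3.trans h.symm)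
          simp only [if_neg h4, mul_zero]
        · simp only [if_neg h3, zero_mul]
    have h3 := h2 h1
    rw [RingHom.mem_ker, map_one] at h3
    exact one_ne_zero h3
  obtain ⟨p, hp, -, x, hx⟩ := exists_prime_colon (Ideal.ofList (gEl k r s r)) 0 1 (by simp) hne
  obtain ⟨B, hB, hcard⟩ := unmixed (gEl k r s r) (g_regular r le_rfl) p x hx
  refine ⟨p, B, hp, ?_, hB, ?_⟩
  · have hmem : ∀ f ∈ gEl k r s r, f ∈ p := by
      intro f hf
      rw [hx]
      exact Ideal.mul_mem_right _ _ (Ideal.subset_span hf)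
    intro i j
    rcases le_total (j : ℕ) i with h | h
    · have := hmem _ (mem_gEl.2 ⟨i, j, h, i.2, rfl⟩)
      rw [gP, dif_pos ⟨i.2, j.2⟩] at this
      simpa [Fin.ext_iff] using this
    · have := hmem _ (mem_gEl.2 ⟨j, i, h, j.2, rfl⟩)
      rw [gP, dif_pos ⟨j.2, i.2⟩] at this
      have e1 : (∑ l : Fin s, X (i, l) * X (j, l) : MvPolynomial (Fin r × Fin s) k) =
          ∑ l : Fin s, X (j, l) * X (i, l) := Finset.sum_congr rfl fun l _ => mul_comm _ _
      rw [e1]
      simpa [Fin.ext_iff, eq_comm] using this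
  · have hcard' : Nat.card (Fin r × Fin s) = r * s := by simp
    have h3 := length_gEl (k := k) r s r
    rw [hcard'] at hcard
    nlinarith

end

end Pool.Agent.H.MP_0e620a_ag
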