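import Pool.Agent.H.MP_0e620a_ag.Num

/-!
# Tools for non-primality
-/

open Set MvPolynomial RingTheory.Sequence

namespace Pool.Agent.H.MP_0e620a_ag

universe u v w

section

variable (k : Type u) {K : Type v} [Field k] [Field K] [Algebra k K]

/-- rank bound for linearly independent pairwise orthogonal rows -/
lemma rk_independent {ι : Type} {d : ℕ} (Y : ι → Fin d → K) (hli : LinearIndependent K Y)
    (horth : ∀ i j, i ≠ j → ∑ l, Y i l * Y j l = 0) (s : Finset ι) :
    ∃ ρ : ℕ, rk k (⋃ i ∈ s, range (Y i)) ≤ ρ ∧ 2 * ρ + s.card * s.card = 2 * s.card * d + s.card := by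
  classical
  induction s using Finset.induction_on with
  | empty => exact ⟨0, by simp [rk_empty], by simp⟩
  | insert i s hi ih =>
    obtain ⟨ρ, hρ, hρ2⟩ := ih
    have h1 := rk_row k (⋃ j ∈ s, range (Y j)) (Y i) (fun j : s => Y j)
      (by
        intro j l
        apply IntermediateField.subset_adjoin
        simp only [mem_iUnion, mem_range]
        exact ⟨j, j.2, l, rfl⟩)
      (hli.comp _ Subtype.val_injective)
      (by
        intro j
        exact horth _ _ (fun h => hi (h ▸ j.2)))
    rw [Fintype.card_coe, Fintype.card_fin] at h1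
    obtain ⟨ρ', hρ', hρ'2⟩ := rk_step k h1 hρ
    refine ⟨ρ', ?_, ?_⟩
    · rw [Finset.set_biUnion_insert, union_comm]
      exact hρ'
    · rw [Finset.card_insert_of_notMem hi]
      nlinarith

end

section

variable {k : Type u} [Field k]

/-- Two nested primes of the same dimension are equal. -/
lemma eq_of_indep {σ : Type} [Finite σ] (P Q : Ideal (MvPolynomial σ k)) (hP : P.IsPrime)
    (hle : P ≤ Q) (B : Set σ)
    (hB : AlgebraicIndepOn k (fun i => Ideal.Quotient.mk Q (X i)) B)
    (hmax : ∀ B' : Set σ, AlgebraicIndepOn k (fun i => Ideal.Quotient.mk P (X i)) B' →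
      B'.ncard ≤ B.ncard) : P = Q := by
  classical
  let v : σ → MvPolynomial σ k ⧸ P := fun i => Ideal.Quotient.mk P (X i)
  let w : σ → MvPolynomial σ k ⧸ Q := fun i => Ideal.Quotient.mk Q (X i)
  let π : (MvPolynomial σ k ⧸ P) →ₐ[k] (MvPolynomial σ k ⧸ Q) := Ideal.Quotient.factorₐ k hle
  have hπ : ∀ i, π (v i) = w i := fun i => rfl
  have hBP : AlgebraicIndepOn k v B := by
    refine AlgebraicIndependent.of_comp π ?_
    exact hB
  have halg : ∀ i, v i ∈ (AlgebraicIndependent.matroid k (MvPolynomial σ k ⧸ P)).closure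
      (v '' B) := by
    intro i
    rw [AlgebraicIndependent.matroid_closure_eq]
    change IsAlgebraic _ _
    by_cases hi : i ∈ B
    · exact isAlgebraic_algebraMap
        (⟨v i, Algebra.subset_adjoin ⟨i, hi, rfl⟩⟩ : Algebra.adjoin k (v '' B))
    · by_contra h
      have h1 : AlgebraicIndepOn k v (insert i B) :=
        (AlgebraicIndepOn.insert_iff hi).2 ⟨hBP, h⟩
      have h2 := hmax _ h1
      rw [Set.ncard_insert_of_notMem hi (Set.toFinite B)] at h2
      omega
  have hall : ∀ f : MvPolynomial σ k ⧸ P, IsAlgebraic (Algebra.adjoin k (v '' B)) f := by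
    intro f
    obtain ⟨g, rfl⟩ := Ideal.Quotient.mk_surjective f
    have h1 : ∀ i, v i ∈ Subalgebra.algebraicClosure (Algebra.adjoin k (v '' B))
        (MvPolynomial σ k ⧸ P) := by
      intro i
      have := halg i
      rw [AlgebraicIndependent.matroid_closure_eq] at this
      exact this
    have h2 : Ideal.Quotient.mk P g ∈ Subalgebra.algebraicClosure (Algebra.adjoin k (v '' B))
        (MvPolynomial σ k ⧸ P) := by
      induction g using MvPolynomial.induction_on with
      | C a =>
        have : Ideal.Quotient.mk P (C a) = algebraMap (Algebra.adjoin k (v '' B)) _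
          (algebraMap k _ a) := rfl
        rw [this]
        exact Subalgebra.algebraMap_mem _ _
      | add f g hf hg =>
        rw [map_add]
        exact add_mem hf hg
      | mul_X f i hf =>
        rw [map_mul]
        exact mul_mem hf (h1 i)
    exact h2
  apply le_antisymm hle
  intro f hfQ
  by_contra hfP
  have hf0 : Ideal.Quotient.mk P f ≠ 0 := by
    rwa [ne_eq, Ideal.Quotient.eq_zero_iff_mem]
  obtain ⟨c, hc0, g, hg⟩ := (hall (Ideal.Quotient.mk P f)).exists_nonzero_dvd
    (mem_nonZeroDivisors_of_ne_zero hf0)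
  have hc : (c : MvPolynomial σ k ⧸ P) ∈ Algebra.adjoin k (Set.range fun b : B => v b) := by
    rw [← Set.image_eq_range]
    exact c.2
  rw [Algebra.adjoin_range_eq_range_aeval] at hc
  obtain ⟨p, hp⟩ := hc
  have h3 : MvPolynomial.aeval (fun b : B => w b) p = 0 := by
    have h4 : MvPolynomial.aeval (fun b : B => w b) p =
        π (MvPolynomial.aeval (fun b : B => v b) p) := by
      rw [← AlgHom.comp_apply, MvPolynomial.comp_aeval]
      rfl
    rw [h4]
    have hp' : MvPolynomial.aeval (fun b : B => v b) p = (c : MvPolynomial σ k ⧸ P) := hp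
    have hg' : (c : MvPolynomial σ k ⧸ P) = Ideal.Quotient.mk P f * g := hg
    rw [hp', hg', map_mul]
    have : π (Ideal.Quotient.mk P f) = Ideal.Quotient.mk Q f := rfl
    rw [this, Ideal.Quotient.eq_zero_iff_mem.2 hfQ, zero_mul]
  have hp0 : p = 0 := AlgebraicIndependent.eq_zero_of_aeval_eq_zero hB p h3
  apply hc0
  apply Subtype.ext
  have hp' : MvPolynomial.aeval (fun b : B => v b) p = (c : MvPolynomial σ k ⧸ P) := hp
  rw [← hp', hp0, map_zero]
  rfl

end

end Pool.Agent.H.MP_0e620a_ag
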