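import Pool.Agent.H.MP_0e620a_ag.Assemble

/-!
# Numerical lemmas about the threshold
-/

namespace Pool.Agent.H.MP_0e620a_ag

/-- `triRoot n` is the largest `p` with `p (p + 1) / 2 ≤ n - 1`. -/
def triRoot (n : ℕ) : ℕ := (Nat.sqrt (8 * n - 7) - 1) / 2

/-- The threshold: `2 n - 2 p` if `p (p + 1) / 2 = n - 1` and `2 n - 2 p - 1` otherwise, where
`p = triRoot n`. -/
def primeThreshold (n : ℕ) : ℕ :=
  if triRoot n * (triRoot n + 1) = 2 * (n - 1) then 2 * n - 2 * triRoot n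
  else 2 * n - 2 * triRoot n - 1

lemma triRoot_spec {n : ℕ} (hn : 1 ≤ n) :
    triRoot n * (triRoot n + 1) ≤ 2 * (n - 1) ∧
      2 * (n - 1) < (triRoot n + 1) * (triRoot n + 2) := by
  obtain ⟨m, rfl⟩ : ∃ m, n = m + 1 := ⟨n - 1, by omega⟩
  have h1 := Nat.sqrt_le' (8 * (m + 1) - 7)
  have h2 := Nat.lt_succ_sqrt' (8 * (m + 1) - 7)
  have h3 : 1 ≤ Nat.sqrt (8 * (m + 1) - 7) := by
    rw [Nat.le_sqrt']
    omega
  unfold triRoot
  generalize Nat.sqrt (8 * (m + 1) - 7) = s at *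
  have e1 : 8 * (m + 1) - 7 = 8 * m + 1 := by omega
  rw [e1] at h1 h2
  obtain ⟨p, hp⟩ : ∃ p, p = (s - 1) / 2 := ⟨_, rfl⟩
  rw [← hp]
  have h4 : 2 * p + 1 ≤ s := by omega
  have h5 : s ≤ 2 * p + 2 := by omega
  simp only [Nat.add_sub_cancel]
  rw [Nat.succ_eq_add_one] at h2
  constructor
  · nlinarith
  · nlinarith

lemma threshold_cases {n : ℕ} (hn : 2 ≤ n) : ∃ p, 1 ≤ p ∧ p ≤ n - 1 ∧
    p * (p + 1) ≤ 2 * (n - 1) ∧ 2 * (n - 1) < (p + 1) * (p + 2) ∧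
    ((p * (p + 1) = 2 * (n - 1) ∧ primeThreshold n = 2 * n - 2 * p) ∨
      (p * (p + 1) + 2 ≤ 2 * (n - 1) ∧ primeThreshold n = 2 * n - 2 * p - 1)) := by
  obtain ⟨h1, h2⟩ := triRoot_spec (n := n) (by omega)
  refine ⟨triRoot n, ?_, ?_, h1, h2, ?_⟩
  · by_contra h
    have h0 : triRoot n = 0 := by omega
    rw [h0] at h2
    omega
  · obtain ⟨m, rfl⟩ : ∃ m, n = m + 1 := ⟨n - 1, by omega⟩
    simp only [Nat.add_sub_cancel] at *
    generalize triRoot (m + 1) = p at *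
    by_contra h
    push Not at h
    nlinarith
  · by_cases h : triRoot n * (triRoot n + 1) = 2 * (n - 1)
    · left
      exact ⟨h, by simp [primeThreshold, h]⟩
    · right
      refine ⟨?_, by simp [primeThreshold, h]⟩
      have h3 : Even (triRoot n * (triRoot n + 1)) := Nat.even_mul_succ_self _
      obtain ⟨c, hc⟩ := h3
      omega

lemma good_of_threshold {n d : ℕ} (hn : 2 ≤ n) (hd : primeThreshold n ≤ d) : Good n d := by
  obtain ⟨p, hp1, hpn, h1, h2, h3⟩ := threshold_cases hn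
  intro a r m hm hsum hdim
  obtain ⟨u, rfl⟩ : ∃ u, d = a + 2 * r + u := ⟨d - (a + 2 * r), by omega⟩
  obtain ⟨s, rfl⟩ : ∃ s, n = a + r + m + 1 + s := ⟨n - (a + r + m + 1), by omega⟩
  have e2 : a + 2 * r + u - a - 2 * r = u := by omega
  rw [e2]
  have e3 : a + r + m + 1 + s - 1 = a + r + m + s := by omega
  rw [e3] at h1 h2 h3
  rcases h3 with ⟨h3, h4⟩ | ⟨h3, h4⟩
  · rw [h4] at hd
    have h6 : a + 2 * m + 2 * s + 2 ≤ u + 2 * p := by omega
    clear h4 hd e2 e3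
    by_cases hmp : p ≤ m
    · obtain ⟨c, rfl⟩ : ∃ c, m = p + c := ⟨m - p, by omega⟩
      obtain ⟨p', rfl⟩ : ∃ p', p = p' + 1 := ⟨p - 1, by omega⟩
      have h7 : a + 2 * c + 2 * s + 2 ≤ u := by omega
      nlinarith [Nat.mul_le_mul_left (p' + 1 + c) h7, Nat.zero_le (p' * a), Nat.zero_le (c * a),
        Nat.zero_le (p' * s), Nat.zero_le (c * s), Nat.zero_le (p' * c), Nat.zero_le (c * c)]
    · obtain ⟨c, rfl⟩ : ∃ c, p = m + 1 + c := ⟨p - m - 1, by omega⟩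
      obtain ⟨m', rfl⟩ : ∃ m', m = m' + 1 := ⟨m - 1, by omega⟩
      nlinarith [Nat.zero_le (m' * u), Nat.zero_le (m' * c), Nat.zero_le (c * c)]
  · rw [h4] at hd
    have h6 : a + 2 * m + 2 * s + 1 ≤ u + 2 * p := by omega
    clear h4 hd e2 e3
    by_cases hmp : p ≤ m
    · obtain ⟨c, rfl⟩ : ∃ c, m = p + c := ⟨m - p, by omega⟩
      obtain ⟨p', rfl⟩ : ∃ p', p = p' + 1 := ⟨p - 1, by omega⟩
      have h7 : a + 2 * c + 2 * s + 1 ≤ u := by omega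
      nlinarith [Nat.mul_le_mul_left (p' + 1 + c) h7, Nat.zero_le (p' * a), Nat.zero_le (c * a),
        Nat.zero_le (p' * s), Nat.zero_le (c * s), Nat.zero_le (p' * c), Nat.zero_le (c * c)]
    · obtain ⟨c, rfl⟩ : ∃ c, p = m + 1 + c := ⟨p - m - 1, by omega⟩
      obtain ⟨m', rfl⟩ : ∃ m', m = m' + 1 := ⟨m - 1, by omega⟩
      nlinarith [Nat.zero_le (m' * u), Nat.zero_le (m' * c), Nat.zero_le (c * c)]

lemma threshold_ge {n : ℕ} (hn : 2 ≤ n) : n ≤ primeThreshold n := by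
  obtain ⟨p, hp1, hpn, h1, h2, h3⟩ := threshold_cases hn
  obtain ⟨m, rfl⟩ : ∃ m, n = m + 1 := ⟨n - 1, by omega⟩
  simp only [Nat.add_sub_cancel] at *
  rcases h3 with ⟨h3, h4⟩ | ⟨h3, h4⟩
  · rw [h4]
    have : 2 * p ≤ m + 1 := by nlinarith
    omega
  · rw [h4]
    have : 2 * p + 1 ≤ m + 1 := by
      rcases p with _ | _ | p
      · omega
      · omega
      · nlinarith [Nat.zero_le (p * p)]
    omega

lemma two_n_le {n p : ℕ} (hn : 2 ≤ n) (h : 2 * (n - 1) < (p + 1) * (p + 2)) :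
    2 * n ≤ (p + 1) * (p + 2) := by
  have h3 : Even ((p + 1) * (p + 1 + 1)) := Nat.even_mul_succ_self _
  obtain ⟨c, hc⟩ := h3
  have e : (p + 1) * (p + 2) = (p + 1) * (p + 1 + 1) := rfl
  rw [e, hc] at h ⊢
  omega

/-- numerical facts for non-primality, even `d` -/
lemma num_even {n r : ℕ} (hn : 2 ≤ n) (hd : 2 * r < primeThreshold n) (hnd : n ≤ 2 * r) :
    r < n ∧ 2 * n * (2 * r) + n ≤ r * r + 2 * n * r + n * n - r := by
  obtain ⟨p, hp1, hpn, h1, h2, h3⟩ := threshold_cases hn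
  have hrn : r + p + 1 ≤ n := by
    rcases h3 with ⟨h3, h4⟩ | ⟨h3, h4⟩ <;> omega
  refine ⟨by omega, ?_⟩
  replace h2 := two_n_le hn h2
  obtain ⟨c, rfl⟩ : ∃ c, n = r + p + 1 + c := ⟨n - (r + p + 1), by omega⟩
  have : 2 * (r + p + 1 + c) * (2 * r) + (r + p + 1 + c) + r ≤
      r * r + 2 * (r + p + 1 + c) * r + (r + p + 1 + c) * (r + p + 1 + c) := by
    nlinarith [Nat.zero_le (p * c), Nat.zero_le (c * c)]
  omega

/-- numerical facts for non-primality, odd `d` -/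
lemma num_odd {n r : ℕ} (hn : 2 ≤ n) (hd : 2 * r + 1 < primeThreshold n) (hnd : n ≤ 2 * r + 1) :
    r + 1 < n ∧ 2 * n * (2 * r + 1) + n ≤ r * r + r + 2 * (n - 1) * r + 2 * r + 2 + n * n := by
  obtain ⟨p, hp1, hpn, h1, h2, h3⟩ := threshold_cases hn
  have hrn : (p * (p + 1) = 2 * (n - 1) ∧ r + p + 1 ≤ n) ∨ (r + p + 2 ≤ n) := by
    rcases h3 with ⟨h3, h4⟩ | ⟨h3, h4⟩
    · left; exact ⟨h3, by omega⟩
    · right; omega
  refine ⟨by omega, ?_⟩
  rcases hrn with ⟨h5, h6⟩ | h6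
  · obtain ⟨c, rfl⟩ : ∃ c, n = r + p + 1 + c := ⟨n - (r + p + 1), by omega⟩
    have e3 : r + p + 1 + c - 1 = r + p + c := by omega
    rw [e3] at h2 h5 ⊢
    nlinarith [Nat.zero_le (p * c), Nat.zero_le (c * c)]
  · obtain ⟨c, rfl⟩ : ∃ c, n = r + p + 2 + c := ⟨n - (r + p + 2), by omega⟩
    have e3 : r + p + 2 + c - 1 = r + p + 1 + c := by omega
    rw [e3] at h2 ⊢
    nlinarith [Nat.zero_le (p * c), Nat.zero_le (c * c)]

end Pool.Agent.H.MP_0e620a_ag
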