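import Pool.Agent.H.MP_0e620a_ag.Isotropic

/-!
# Large dimensional families of dependent orthogonal rows
-/

open Set MvPolynomial

namespace Pool.Agent.H.MP_0e620a_ag

universe u v w

section

variable {k : Type u} {K : Type v} [Field k] [Field K] [Algebra k K]

/-- the vectors used in the construction -/
noncomputable def bigY {r s n0 a : ℕ} (m : Fin r → Fin s → K) (V : Fin n0 → Fin r → K)
    (z : Fin a → Fin s → K) : Fin (n0 + a) → Fin (r + s) → K :=
  Fin.append (fun i => Fin.append (V i) (fun l => ∑ t, V i t * m t l))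
    (fun i => Fin.append (fun t => -∑ l, z i l * m t l) (z i))

lemma bigY_dot {r s n0 a : ℕ} (ha : a ≤ 1) (m : Fin r → Fin s → K) (V : Fin n0 → Fin r → K)
    (z : Fin a → Fin s → K)
    (hm : ∀ i j : Fin r, ∑ l, m i l * m j l + (if i = j then 1 else 0) = 0)
    (i j : Fin (n0 + a)) (hij : i ≠ j) : ∑ l, bigY m V z i l * bigY m V z j l = 0 := by
  classical
  have h1 : ∀ (i : Fin n0) (j : Fin a),
      ∑ l, bigY m V z (Fin.castAdd a i) l * bigY m V z (Fin.natAdd n0 j) l = 0 := by
    intro i j
    simp only [bigY, Fin.append_left, Fin.append_right, Fin.sum_univ_add]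
    simp only [mul_neg, Finset.mul_sum, Finset.sum_mul, Finset.sum_neg_distrib]
    rw [Finset.sum_comm (γ := Fin s)]
    rw [neg_add_eq_zero]
    refine Finset.sum_congr rfl fun t _ => Finset.sum_congr rfl fun l _ => by ring
  revert hij
  refine Fin.addCases (fun i => ?_) (fun i => ?_) i <;>
    refine Fin.addCases (fun j => ?_) (fun j => ?_) j <;> intro hij
  · simp only [bigY, Fin.append_left, Fin.append_right, Fin.sum_univ_add]
    simp only [Finset.mul_sum, Finset.sum_mul]
    have h2 : ∀ t, ∑ u, (V i t * V j u) * (∑ l, m t l * m u l) = - (V i t * V j t) := by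
      intro t
      have h3 : ∀ u, (V i t * V j u) * (∑ l, m t l * m u l) =
          -(V i t * V j u * (if t = u then 1 else 0)) := by
        intro u
        rw [eq_neg_of_add_eq_zero_left (hm t u)]
        ring
      rw [Finset.sum_congr rfl (fun u _ => h3 u)]
      simp
    have h4 : ∑ l : Fin s, ∑ u : Fin r, ∑ t : Fin r, V i t * m t l * (V j u * m u l) =
        ∑ t, ∑ u, (V i t * V j u) * (∑ l, m t l * m u l) := by
      rw [Finset.sum_comm]
      rw [Finset.sum_congr rfl (fun u _ => Finset.sum_comm)]
      rw [Finset.sum_comm]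
      refine Finset.sum_congr rfl fun t _ => Finset.sum_congr rfl fun u _ => ?_
      rw [Finset.mul_sum]
      exact Finset.sum_congr rfl fun l _ => by ring
    rw [h4, Finset.sum_congr rfl (fun t _ => h2 t), Finset.sum_neg_distrib]
    simp
  · exact h1 i j
  · rw [← h1 j i]
    exact Finset.sum_congr rfl fun l _ => mul_comm _ _
  · exfalso
    apply hij
    have : i = j := by
      apply Fin.ext
      omega
    rw [this]

lemma bigY_dep {r s n0 a : ℕ} (hr : r < n0) (m : Fin r → Fin s → K) (V : Fin n0 → Fin r → K)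
    (z : Fin a → Fin s → K) : ¬ LinearIndependent K (bigY m V z) := by
  intro h
  have h1 : LinearIndependent K V := by
    rw [Fintype.linearIndependent_iff] at h ⊢
    intro g hg i
    have h2 := h (Fin.append g (fun _ => 0)) (by
      rw [Fin.sum_univ_add]
      simp only [Fin.append_left, Fin.append_right, zero_smul, Finset.sum_const_zero, add_zero]
      funext l
      refine Fin.addCases (fun l => ?_) (fun l => ?_) l
      · have := congrFun hg l
        simpa [bigY, Finset.sum_apply] using this
      · simp only [bigY, Finset.sum_apply, Pi.smul_apply, Fin.append_left, Fin.append_right,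
          smul_eq_mul, Pi.zero_apply, Finset.mul_sum]
        rw [Finset.sum_comm]
        apply Finset.sum_eq_zero
        intro t _
        have := congrFun hg t
        simp only [Finset.sum_apply, Pi.smul_apply, smul_eq_mul, Pi.zero_apply] at this
        simp only [← mul_assoc]
        rw [← Finset.sum_mul, this, zero_mul]) (Fin.castAdd a i)
    rwa [Fin.append_left] at h2
  have h3 := h1.fintype_card_le_finrank
  rw [Module.finrank_fintype_fun_eq_card, Fintype.card_fin, Fintype.card_fin] at h3
  omega

lemma bigY_mem {r s n0 a : ℕ} (hr : r ≤ n0) (m : Fin r → Fin s → K) (V : Fin n0 → Fin r → K)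
    (z : Fin a → Fin s → K)
    (hV : IsUnit (Matrix.of (fun i t : Fin r => V (Fin.castLE hr i) t)).det) (t : Fin r)
    (l : Fin s) :
    m t l ∈ IntermediateField.adjoin k
      (range fun p : Fin (n0 + a) × Fin (r + s) => bigY m V z p.1 p.2) := by
  classical
  let F := IntermediateField.adjoin k
      (range fun p : Fin (n0 + a) × Fin (r + s) => bigY m V z p.1 p.2)
  have hF : ∀ i j, bigY m V z i j ∈ F := fun i j =>
    IntermediateField.subset_adjoin k _ ⟨(i, j), rfl⟩
  have hF1 : ∀ i j, V i j ∈ F := by
    intro i j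
    have := hF (Fin.castAdd a i) (Fin.castAdd s j)
    simpa [bigY] using this
  have hF2 : ∀ i, ∑ t, V i t * m t l ∈ F := by
    intro i
    have := hF (Fin.castAdd a i) (Fin.natAdd r l)
    simpa [bigY] using this
  let A : Matrix (Fin r) (Fin r) F := Matrix.of fun i t => ⟨V (Fin.castLE hr i) t, hF1 _ _⟩
  let b : Fin r → F := fun i => ⟨∑ t, V (Fin.castLE hr i) t * m t l, hF2 _⟩
  have hAdet : A.det ≠ 0 := by
    intro h
    have h1 : (algebraMap F K).mapMatrix A = Matrix.of (fun i t : Fin r => V (Fin.castLE hr i) t) := by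
      ext i t
      rfl
    rw [← h1, ← RingHom.map_det, h, map_zero] at hV
    exact not_isUnit_zero hV
  have hA : A.mulVec (A⁻¹.mulVec b) = b := by
    rw [Matrix.mulVec_mulVec, Matrix.mul_nonsing_inv _ (isUnit_iff_ne_zero.2 hAdet),
      Matrix.one_mulVec]
  let x : Fin r → K := fun t => ((A⁻¹.mulVec b) t : K)
  have hx : (Matrix.of (fun i t : Fin r => V (Fin.castLE hr i) t)).mulVec x =
      (Matrix.of (fun i t : Fin r => V (Fin.castLE hr i) t)).mulVec (fun t => m t l) := by
    funext i
    have h1 := congrArg (fun (f : F) => (f : K)) (congrFun hA i)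
    simp only [Matrix.mulVec, dotProduct] at h1 ⊢
    have h2 : ((∑ t, A i t * (A⁻¹.mulVec b) t : F) : K) = ∑ t, V (Fin.castLE hr i) t * x t := by
      push_cast
      rfl
    simp only [Matrix.mulVec, dotProduct] at h2
    simp only [Matrix.of_apply]
    rw [← h2, h1]
  have hinj := Matrix.mulVec_injective_of_isUnit
    ((Matrix.isUnit_iff_isUnit_det _).2 hV)
  have hxm := hinj hx
  have h3 : x t = m t l := congrFun hxm t
  rw [← h3]
  exact ((A⁻¹.mulVec b) t).2

end

section

variable {k : Type u} [Field k]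

/-- existence of the data used in the construction -/
lemma exists_data {r s n0 a : ℕ} (hrs : r ≤ s) (hr : r ≤ n0) :
    ∃ (K : Type u) (_ : Field K) (_ : Algebra k K) (m : Fin r → Fin s → K)
      (V : Fin n0 → Fin r → K) (z : Fin a → Fin s → K) (BM : Set (Fin r × Fin s)),
      (∀ i j : Fin r, ∑ l, m i l * m j l + (if i = j then 1 else 0) = 0) ∧
      2 * r * s ≤ r * r + r + 2 * BM.ncard ∧
      IsUnit (Matrix.of (fun i t : Fin r => V (Fin.castLE hr i) t)).det ∧
      AlgebraicIndependent k (Sum.elim (Sum.elim (fun q : Fin n0 × Fin r => V q.1 q.2)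
        (fun q : Fin a × Fin s => z q.1 q.2))
        (fun b : BM => m (b : Fin r × Fin s).1 (b : Fin r × Fin s).2)) := by
  classical
  obtain ⟨p, BM, hp, hmp, hBM, hcard⟩ := exists_isotropic_prime (k := k) hrs
  let D := MvPolynomial (Fin r × Fin s) k ⧸ p
  let T := MvPolynomial ((Fin n0 × Fin r) ⊕ (Fin a × Fin s)) D
  let K := FractionRing T
  have hTK : Function.Injective (algebraMap T K) := IsFractionRing.injective T K
  let m : Fin r → Fin s → K := fun i l => algebraMap D K (Ideal.Quotient.mk p (X (i, l)))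
  let g : (Fin n0 × Fin r) ⊕ (Fin a × Fin s) → K := fun q => algebraMap T K (X q)
  let V : Fin n0 → Fin r → K := fun i l => g (Sum.inl (i, l))
  let z : Fin a → Fin s → K := fun i l => g (Sum.inr (i, l))
  have hm : ∀ i j : Fin r, ∑ l, m i l * m j l + (if i = j then 1 else 0) = 0 := by
    intro i j
    have h1 := congrArg (algebraMap D K) (Ideal.Quotient.eq_zero_iff_mem.2 (hmp i j))
    rw [map_zero, map_add, map_add, map_sum, map_sum] at h1
    refine Eq.trans ?_ h1
    congr 1
    · exact Finset.sum_congr rfl fun l _ => by rw [map_mul, map_mul]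
    · split_ifs
      · rw [map_one, map_one]
      · rw [map_zero, map_zero]
  -- algebraic independence
  have hg : AlgebraicIndependent D g := by
    have h1 := (MvPolynomial.algebraicIndependent_X ((Fin n0 × Fin r) ⊕ (Fin a × Fin s)) D).map'
      (f := IsScalarTower.toAlgHom D T K) hTK
    exact h1
  have hind : AlgebraicIndependent k (Sum.elim g
      (fun b : BM => algebraMap D K (Ideal.Quotient.mk p (X (b : Fin r × Fin s))))) :=
    AlgebraicIndependent.sumElim_comp hBM hg
  have hgk : AlgebraicIndependent k g := by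
    have := hind.comp Sum.inl Sum.inl_injective
    exact this
  have hV : IsUnit (Matrix.of (fun i t : Fin r => V (Fin.castLE hr i) t)).det := by
    let x : Fin r × Fin r → K := fun q => V (Fin.castLE hr q.1) q.2
    have hx : AlgebraicIndependent k x := by
      have := hgk.comp (fun q : Fin r × Fin r =>
        (Sum.inl (Fin.castLE hr q.1, q.2) : (Fin n0 × Fin r) ⊕ (Fin a × Fin s))) (by
          intro q q' h
          simp only [Sum.inl.injEq, Prod.mk.injEq, Fin.castLE_inj] at h
          exact Prod.ext h.1 h.2)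
      exact this
    rw [isUnit_iff_ne_zero]
    have h2 : (Matrix.of (fun i t : Fin r => V (Fin.castLE hr i) t)) =
        (MvPolynomial.aeval x : MvPolynomial (Fin r × Fin r) k →ₐ[k] K).mapMatrix
          (Matrix.mvPolynomialX (Fin r) (Fin r) k) := by
      ext i t
      exact (MvPolynomial.aeval_X x (i, t)).symm
    rw [h2, ← AlgHom.map_det]
    intro h3
    exact Matrix.det_mvPolynomialX_ne_zero (Fin r) k (hx.eq_zero_of_aeval_eq_zero _ h3)
  refine ⟨K, inferInstance, inferInstance, m, V, z, BM, hm, hcard, hV, ?_⟩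
  have hge : Sum.elim (fun q : Fin n0 × Fin r => V q.1 q.2)
        (fun q : Fin a × Fin s => z q.1 q.2) = g := by
    funext q
    rcases q with q | q <;> rfl
  rw [hge]
  exact hind

/-- rank of the vectors in the construction -/
lemma rank_bigY {K : Type v} [Field K] [Algebra k K] {r s n0 a : ℕ} (hr : r ≤ n0)
    (m : Fin r → Fin s → K) (V : Fin n0 → Fin r → K) (z : Fin a → Fin s → K)
    (BM : Set (Fin r × Fin s))
    (hV : IsUnit (Matrix.of (fun i t : Fin r => V (Fin.castLE hr i) t)).det)
    (hind : AlgebraicIndependent k (Sum.elim (Sum.elim (fun q : Fin n0 × Fin r => V q.1 q.2)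
        (fun q : Fin a × Fin s => z q.1 q.2))
        (fun b : BM => m (b : Fin r × Fin s).1 (b : Fin r × Fin s).2))) :
    ((BM.ncard + (n0 * r + a * s) : ℕ) : ℕ∞) ≤
      rk k (range fun q : Fin (n0 + a) × Fin (r + s) => bigY m V z q.1 q.2) := by
  have hmem1 : range (Sum.elim (Sum.elim (fun q : Fin n0 × Fin r => V q.1 q.2)
        (fun q : Fin a × Fin s => z q.1 q.2))
        (fun b : BM => m (b : Fin r × Fin s).1 (b : Fin r × Fin s).2)) ⊆
      cl k (range fun q : Fin (n0 + a) × Fin (r + s) => bigY m V z q.1 q.2) := by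
    rintro _ ⟨(q | b), rfl⟩
    · apply subset_cl
      rcases q with ⟨i, l⟩ | ⟨i, l⟩
      · exact ⟨(Fin.castAdd a i, Fin.castAdd s l), by simp [bigY]⟩
      · exact ⟨(Fin.natAdd n0 i, Fin.natAdd r l), by simp [bigY]⟩
    · apply adjoin_subset_cl
      exact bigY_mem (k := k) hr m V z hV _ _
  have h1 : (AlgebraicIndependent.matroid k K).Indep (range (Sum.elim
      (Sum.elim (fun q : Fin n0 × Fin r => V q.1 q.2)
        (fun q : Fin a × Fin s => z q.1 q.2))
        (fun b : BM => m (b : Fin r × Fin s).1 (b : Fin r × Fin s).2))) := by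
    rw [AlgebraicIndependent.matroid_indep_iff]
    exact (algebraicIndependent_subtype_range hind.injective).2 hind
  refine le_trans ?_ (rk_le_of_subset_cl k hmem1)
  rw [rk, h1.eRk_eq_encard, ← image_univ, hind.injective.encard_image, encard_univ,
    ENat.card_eq_coe_natCard, Nat.card_sum, Nat.card_sum, Nat.card_prod, Nat.card_prod,
    Nat.card_coe_set_eq]
  simp only [Nat.card_eq_fintype_card, Fintype.card_fin]
  rw [add_comm]

/-- from a lower bound on the rank of a point to an independent set of coordinates -/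
lemma exists_indep_coords {K : Type v} [Field K] [Algebra k K] {σ : Type} [Finite σ] (v : σ → K)
    (c : ℕ) (hc : (c : ℕ∞) ≤ rk k (range v)) :
    ∃ B : Set σ, c ≤ B.ncard ∧ AlgebraicIndependent k (fun b : B => v b) := by
  obtain ⟨I, hI⟩ := (AlgebraicIndependent.matroid k K).exists_isBasis (range v)
    (by simp)
  have hIcard : I.encard = rk k (range v) := hI.encard_eq_eRk
  obtain ⟨B, -, hBI⟩ : ∃ B ⊆ (univ : Set σ), BijOn v B I := by
    apply SurjOn.exists_bijOn_subset
    intro x hx
    obtain ⟨q, hq⟩ := hI.subset hx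
    exact ⟨q, mem_univ _, hq⟩
  have hBcard : B.encard = I.encard := by
    rw [← hBI.image_eq, hBI.injOn.encard_image]
  refine ⟨B, ?_, ?_⟩
  · have h6 : (c : ℕ∞) ≤ (B.ncard : ℕ∞) := by
      rw [(Set.toFinite B).cast_ncard_eq, hBcard, hIcard]
      exact hc
    exact_mod_cast h6
  · have hinj : Function.Injective (fun b : B => v b) := hBI.injOn.injective
    rw [← algebraicIndependent_subtype_range hinj]
    have h2 : range (fun b : B => v b) = I := by
      rw [← hBI.image_eq, image_eq_range]
    rw [h2]
    exact AlgebraicIndependent.matroid_indep_iff.1 hI.indep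

/-- A prime ideal of large dimension containing the orthogonality relations and all maximal
minors. -/
lemma exists_big_prime {n r s n0 a : ℕ} {d : ℕ} (hrs : r ≤ s) (ha : a ≤ 1) (hr : r < n0)
    (hn : n = n0 + a) (hd : d = r + s) (hnd : n ≤ d) :
    ∃ (Q : Ideal (MvPolynomial (Fin n × Fin d) k)) (B : Set (Fin n × Fin d)), Q.IsPrime ∧
      rowIdeal k d n ≤ Q ∧
      (minorMat k d le_rfl (Fin.castLE hnd)).det ∈ Q ∧
      AlgebraicIndepOn k (fun p => Ideal.Quotient.mk Q (X p)) B ∧
      2 * r * s + 2 * n0 * r + 2 * a * s ≤ r * r + r + 2 * B.ncard := by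
  classical
  subst hn hd
  obtain ⟨K, _, _, m, V, z, BM, hm, hcard, hV, hind⟩ :=
    exists_data (k := k) (a := a) hrs hr.le
  have hdot := bigY_dot ha m V z hm
  have hdep := bigY_dep hr m V z
  let v : Fin (n0 + a) × Fin (r + s) → K := fun q => bigY m V z q.1 q.2
  obtain ⟨B, hBcard, hBind⟩ := exists_indep_coords (k := k) v _
    (rank_bigY hr.le m V z BM hV hind)
  let Φ : MvPolynomial (Fin (n0 + a) × Fin (r + s)) k →ₐ[k] K := MvPolynomial.aeval v
  have hΦX : ∀ q, Φ (X q) = v q := fun q => MvPolynomial.aeval_X _ q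
  refine ⟨RingHom.ker Φ, B, RingHom.ker_isPrime Φ, ?_, ?_, ?_, ?_⟩
  · rw [rowIdeal, Ideal.span_le]
    rintro f ⟨i, j, hij, -, -, rfl⟩
    rw [SetLike.mem_coe, RingHom.mem_ker, edgePoly, map_sum]
    rw [← hdot i j hij]
    exact Finset.sum_congr rfl fun l _ => by rw [map_mul, hΦX, hΦX]
  · rw [RingHom.mem_ker, AlgHom.map_det]
    by_contra hdet
    apply hdep
    have h3 := Matrix.linearIndependent_rows_iff_isUnit.2
      ((Matrix.isUnit_iff_isUnit_det _).2 (isUnit_iff_ne_zero.2 hdet))
    rw [Fintype.linearIndependent_iff] at h3 ⊢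
    intro c hc i
    apply h3 c
    funext l
    have h4 := congrFun hc (Fin.castLE hnd l)
    simp only [Finset.sum_apply, Pi.smul_apply, smul_eq_mul, Pi.zero_apply, Matrix.row,
      AlgHom.mapMatrix_apply, Matrix.map_apply, minorMat, hΦX] at h4 ⊢
    exact h4
  · let ψ : (MvPolynomial (Fin (n0 + a) × Fin (r + s)) k ⧸ RingHom.ker Φ) →ₐ[k] K :=
      Ideal.kerLiftAlg Φ
    refine AlgebraicIndependent.of_comp ψ ?_
    have h5 : (ψ ∘ fun b : B => Ideal.Quotient.mk (RingHom.ker Φ) (X (b : Fin (n0 + a) × Fin (r + s))))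
        = fun b : B => v b := by
      funext b
      exact hΦX b
    rw [h5]
    exact hBind
  · nlinarith

end

end Pool.Agent.H.MP_0e620a_ag
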