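import Mathlib

/-!
# Transcendence rank of sets, and the effect of adding a vector satisfying linear equations
-/

open Set

namespace Pool.Agent.H.MP_0e620a_ag

universe u v w

section

variable (k : Type u) {K : Type v} [Field k] [Field K] [Algebra k K]

/-- transcendence degree over `k` of the field generated by `s` (in `ℕ∞`). -/
noncomputable def rk (s : Set K) : ℕ∞ := (AlgebraicIndependent.matroid k K).eRk s

/-- algebraic closure of `k(s)` in `K`, as a set -/
noncomputable def cl (s : Set K) : Set K := (AlgebraicIndependent.matroid k K).closure s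

lemma mem_cl {s : Set K} {x : K} : x ∈ cl k s ↔ IsAlgebraic (Algebra.adjoin k s) x := by
  rw [cl, AlgebraicIndependent.matroid_closure_eq]
  rfl

lemma subset_cl (s : Set K) : s ⊆ cl k s := by
  intro x hx
  rw [mem_cl]
  exact isAlgebraic_algebraMap (⟨x, Algebra.subset_adjoin hx⟩ : Algebra.adjoin k s)

lemma cl_mono {s t : Set K} (h : s ⊆ t) : cl k s ⊆ cl k t :=
  (AlgebraicIndependent.matroid k K).closure_subset_closure h

lemma rk_mono {s t : Set K} (h : s ⊆ t) : rk k s ≤ rk k t :=
  (AlgebraicIndependent.matroid k K).eRk_mono h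

lemma rk_cl (s : Set K) : rk k (cl k s) = rk k s :=
  (AlgebraicIndependent.matroid k K).eRk_closure_eq s

lemma rk_le_of_subset_cl {s t : Set K} (h : s ⊆ cl k t) : rk k s ≤ rk k t :=
  (rk_mono k h).trans (rk_cl k t).le

lemma rk_union_le (s t : Set K) : rk k (s ∪ t) ≤ rk k s + t.encard :=
  (AlgebraicIndependent.matroid k K).eRk_union_le_eRk_add_encard s t

lemma rk_empty : rk k (∅ : Set K) = 0 := (AlgebraicIndependent.matroid k K).eRk_empty

lemma rk_le_encard (s : Set K) : rk k s ≤ s.encard :=
  (AlgebraicIndependent.matroid k K).eRk_le_encard s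

/-- elements of the field generated by `s` lie in `cl s` -/
lemma adjoin_subset_cl (s : Set K) : (IntermediateField.adjoin k s : Set K) ⊆ cl k s := by
  intro x hx
  rw [mem_cl]
  refine IntermediateField.adjoin_induction k (p := fun y _ => IsAlgebraic (Algebra.adjoin k s) y)
    ?_ ?_ ?_ ?_ ?_ hx
  · intro y hy
    exact isAlgebraic_algebraMap (⟨y, Algebra.subset_adjoin hy⟩ : Algebra.adjoin k s)
  · intro y
    exact isAlgebraic_algebraMap (⟨algebraMap k K y, Subalgebra.algebraMap_mem _ y⟩ :
      Algebra.adjoin k s)
  · intro y z _ _ hy hz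
    exact hy.add hz
  · intro y _ hy
    exact hy.inv
  · intro y z _ _ hy hz
    exact hy.mul hz

/-- an element algebraic over `F[s]`, `F = k(t)`, lies in `cl (t ∪ s)` -/
lemma mem_cl_of_isAlgebraic_adjoin (t s : Set K) (x : K)
    (hx : IsAlgebraic (Algebra.adjoin (IntermediateField.adjoin k t) s) x) :
    x ∈ cl k (t ∪ s) := by
  rw [mem_cl]
  have h0 : IsAlgebraic (Subalgebra.restrictScalars k
    (Algebra.adjoin (IntermediateField.adjoin k t) s)) x := hx
  have h : Subalgebra.restrictScalars k (Algebra.adjoin (IntermediateField.adjoin k t) s) =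
      Algebra.adjoin k ((IntermediateField.adjoin k t : Set K) ∪ s) :=
    Algebra.restrictScalars_adjoin k (IntermediateField.adjoin k t).toSubalgebra s
  rw [h] at h0
  refine IsAlgebraic.adjoin_of_forall_isAlgebraic ?_ h0
  rintro y ⟨hy | hy, hyt⟩
  · have := adjoin_subset_cl k t hy
    have h2 := cl_mono k (subset_union_left (s := t) (t := s)) this
    rwa [mem_cl] at h2
  · exact absurd (Or.inr hy) hyt

lemma encard_range_fin {α : Type*} {m : ℕ} {b : Fin m → α} (hb : Function.Injective b) :
    (range b).encard = m := by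
  rw [← image_univ, hb.encard_image, encard_univ]
  simp

/-- The main counting lemma. Let `z` be a vector with entries in `K` satisfying linear equations
`u i · z = 0` with coefficients in `k(t)` and `u` linearly independent. Then the rank of
`t ∪ range z` exceeds that of `t` by at most the number of entries minus the number of
equations; moreover it is smaller by one more if `z · z = c` for some nonzero `c ∈ k(t)`. -/
lemma rk_row_aux (t : Set K) {ι : Type} [Fintype ι] (z : ι → K) {κ : Type} [Fintype κ]
    (u : κ → ι → K) (hu : ∀ i l, u i l ∈ IntermediateField.adjoin k t)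
    (hli : LinearIndependent K u) (horth : ∀ i, ∑ l, u i l * z l = 0) :
    ∃ (m : ℕ) (b : Fin m → K), Function.Injective b ∧ m + Fintype.card κ ≤ Fintype.card ι ∧
      (∀ j, b j ∈ range z) ∧
      ∀ l, ∃ c : Fin m → IntermediateField.adjoin k t, z l = ∑ j, (c j : K) * b j := by
  classical
  let F := IntermediateField.adjoin k t
  let Φ : (ι → F) →ₗ[F] K := Fintype.linearCombination F z
  have hrange : LinearMap.range Φ = Submodule.span F (range z) :=
    Fintype.range_linearCombination F z
  let u' : κ → (ι → F) := fun i l => ⟨u i l, hu i l⟩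
  have hu'ker : ∀ i, u' i ∈ LinearMap.ker Φ := by
    intro i
    rw [LinearMap.mem_ker, Fintype.linearCombination_apply]
    exact horth i
  have hu'li : LinearIndependent F u' := by
    rw [Fintype.linearIndependent_iff] at hli ⊢
    intro g hg i
    have := hli (fun i => (g i : K)) (by
      funext l
      have h1 := congrArg (fun (f : F) => (f : K)) (congrFun hg l)
      simpa [u', Finset.sum_apply] using h1) i
    exact Subtype.ext this
  have hker : Fintype.card κ ≤ Module.finrank F (LinearMap.ker Φ) := by
    have h2 : LinearIndependent F (fun i => (⟨u' i, hu'ker i⟩ : LinearMap.ker Φ)) := by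
      apply LinearIndependent.of_comp (LinearMap.ker Φ).subtype
      exact hu'li
    exact h2.fintype_card_le_finrank
  have hrn := LinearMap.finrank_range_add_finrank_ker Φ
  rw [Module.finrank_fintype_fun_eq_card, hrange] at hrn
  obtain ⟨κ', a, ha, hspan, hali⟩ := exists_linearIndependent' F z
  have : Finite κ' := Finite.of_injective a ha
  have : Fintype κ' := Fintype.ofFinite κ'
  have hcard : Module.finrank F (Submodule.span F (range z)) = Fintype.card κ' := by
    rw [← hspan]
    exact finrank_span_eq_card hali
  let e := Fintype.equivFin κ'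
  refine ⟨Fintype.card κ', fun j => z (a (e.symm j)), ?_, ?_, ?_, ?_⟩
  · intro i j hij
    exact e.symm.injective (hali.injective hij)
  · rw [← hcard]
    omega
  · intro j
    exact ⟨_, rfl⟩
  · intro l
    have h3 : z l ∈ Submodule.span F (range (z ∘ a)) := by
      rw [hspan]
      exact Submodule.subset_span ⟨l, rfl⟩
    rw [Submodule.mem_span_range_iff_exists_fun] at h3
    obtain ⟨c, hc⟩ := h3
    refine ⟨fun j => c (e.symm j), ?_⟩
    rw [← hc]
    rw [← Equiv.sum_comp e.symm]
    rfl

lemma rk_row (t : Set K) {ι : Type} [Fintype ι] (z : ι → K) {κ : Type} [Fintype κ]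
    (u : κ → ι → K) (hu : ∀ i l, u i l ∈ IntermediateField.adjoin k t)
    (hli : LinearIndependent K u) (horth : ∀ i, ∑ l, u i l * z l = 0) :
    rk k (t ∪ range z) + (Fintype.card κ : ℕ∞) ≤ rk k t + (Fintype.card ι : ℕ∞) := by
  obtain ⟨m, b, hb, hm, -, hz⟩ := rk_row_aux k t z u hu hli horth
  have h1 : t ∪ range z ⊆ cl k (t ∪ range b) := by
    rintro x (hx | ⟨l, rfl⟩)
    · exact subset_cl k _ (Or.inl hx)
    · obtain ⟨c, hc⟩ := hz l
      rw [hc]
      apply adjoin_subset_cl k
      refine sum_mem fun j _ => mul_mem ?_ ?_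
      · exact IntermediateField.adjoin.mono k _ _ subset_union_left (c j).2
      · exact IntermediateField.subset_adjoin k _ (Or.inr ⟨j, rfl⟩)
  have h2 : rk k (t ∪ range z) ≤ rk k t + m := by
    refine (rk_le_of_subset_cl k h1).trans ((rk_union_le k _ _).trans ?_)
    gcongr
    rw [encard_range_fin hb]
  calc rk k (t ∪ range z) + (Fintype.card κ : ℕ∞) ≤ rk k t + m + Fintype.card κ := by gcongr
    _ = rk k t + ((m + Fintype.card κ : ℕ) : ℕ∞) := by push_cast; ring
    _ ≤ rk k t + Fintype.card ι := by gcongr

/-- The same with an extra inhomogeneous quadratic equation `z · z = -1`. -/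
lemma rk_row_quad (t : Set K) {ι : Type} [Fintype ι] (z : ι → K) {κ : Type} [Fintype κ]
    (u : κ → ι → K) (hu : ∀ i l, u i l ∈ IntermediateField.adjoin k t)
    (hli : LinearIndependent K u) (horth : ∀ i, ∑ l, u i l * z l = 0)
    (hquad : ∑ l, z l * z l = -1) :
    rk k (t ∪ range z) + ((Fintype.card κ + 1 : ℕ) : ℕ∞) ≤ rk k t + (Fintype.card ι : ℕ∞) := by
  classical
  obtain ⟨m, b, hb, hm, -, hz⟩ := rk_row_aux k t z u hu hli horth
  choose c hc using hz
  let F := IntermediateField.adjoin k t
  -- the range of b is algebraically dependent over F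
  have hdep : ¬ (AlgebraicIndependent.matroid F K).Indep (range b) := by
    intro hind
    have h1 : AlgebraicIndependent F b := by
      have h2 : AlgebraicIndependent F ((↑) : range b → K) :=
        AlgebraicIndependent.matroid_indep_iff.1 hind
      exact (algebraicIndependent_subtype_range hb).1 h2
    let H : MvPolynomial (Fin m) F := ∑ l, (∑ j, MvPolynomial.C (c l j) * MvPolynomial.X j) ^ 2 + 1
    have hH : MvPolynomial.aeval b H = 0 := by
      simp only [H, map_add, map_sum, map_pow, map_mul, MvPolynomial.aeval_X,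
        MvPolynomial.aeval_C, map_one]
      have h3 : ∀ l, (∑ j, (algebraMap F K) (c l j) * b j) ^ 2 = z l * z l := by
        intro l
        rw [hc l, sq]
        rfl
      rw [Finset.sum_congr rfl (fun l _ => h3 l), hquad]
      ring
    have hH0 : H = 0 := h1.eq_zero_of_aeval_eq_zero H hH
    have h4 : MvPolynomial.constantCoeff H = 1 := by
      simp [H]
    rw [hH0] at h4
    simp at h4
  rw [Matroid.indep_iff_forall_notMem_closure_sdiff (by simp)] at hdep
  push Not at hdep
  obtain ⟨e, he, hecl⟩ := hdep
  have hecl' : e ∈ cl k (t ∪ (range b \ {e})) := by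
    apply mem_cl_of_isAlgebraic_adjoin
    rw [AlgebraicIndependent.matroid_closure_eq] at hecl
    exact hecl
  have h1 : t ∪ range z ⊆ cl k (t ∪ (range b \ {e})) := by
    have h5 : t ∪ range b ⊆ cl k (t ∪ (range b \ {e})) := by
      rintro x (hx | hx)
      · exact subset_cl k _ (Or.inl hx)
      · by_cases hxe : x = e
        · rw [hxe]; exact hecl'
        · exact subset_cl k _ (Or.inr ⟨hx, hxe⟩)
    have h6 : cl k (t ∪ range b) ⊆ cl k (t ∪ (range b \ {e})) :=
      (AlgebraicIndependent.matroid k K).closure_subset_closure_of_subset_closure h5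
    refine Set.Subset.trans ?_ h6
    rintro x (hx | ⟨l, rfl⟩)
    · exact subset_cl k _ (Or.inl hx)
    · rw [hc l]
      apply adjoin_subset_cl k
      refine sum_mem fun j _ => mul_mem ?_ ?_
      · exact IntermediateField.adjoin.mono k _ _ subset_union_left (c l j).2
      · exact IntermediateField.subset_adjoin k _ (Or.inr ⟨j, rfl⟩)
  have hcard : (range b \ {e}).encard + 1 = m := by
    rw [Set.encard_sdiff_singleton_add_one he, encard_range_fin hb]
  calc rk k (t ∪ range z) + ((Fintype.card κ + 1 : ℕ) : ℕ∞)
      ≤ (rk k t + (range b \ {e}).encard) + ((Fintype.card κ + 1 : ℕ) : ℕ∞) := by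
        gcongr
        exact (rk_le_of_subset_cl k h1).trans (rk_union_le k _ _)
    _ = rk k t + ((range b \ {e}).encard + 1 + Fintype.card κ) := by push_cast; ring
    _ = rk k t + ((m + Fintype.card κ : ℕ) : ℕ∞) := by rw [hcard]; push_cast; ring
    _ ≤ rk k t + Fintype.card ι := by gcongr

end

end Pool.Agent.H.MP_0e620a_ag
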