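import Mathlib

/-!
# Regular sequences in polynomial rings and unmixedness

Part A: if `rs` is a weakly regular sequence in `S = MvPolynomial σ k` and `q` is a prime of the
form `(I : x)` with `I = (rs)`, then `trdeg (S/q) + rs.length ≥ #σ`.
-/

open RingTheory.Sequence MvPolynomial

namespace Pool.Agent.H.MP_0e620a_ag

universe u v

section MonicRegular

/-- a monic polynomial is regular on `A[X]/(I A[X])` -/
lemma monic_regular_mod {A : Type u} [CommRing A] (I : Ideal A) (p : Polynomial A)
    (hp : p.Monic) (g : Polynomial A) (h : p * g ∈ I.map (Polynomial.C : A →+* Polynomial A)) :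
    g ∈ I.map (Polynomial.C : A →+* Polynomial A) := by
  have key : ∀ f : Polynomial A, f ∈ I.map (Polynomial.C : A →+* Polynomial A) ↔
      Polynomial.map (Ideal.Quotient.mk I) f = 0 := by
    intro f
    rw [Ideal.mem_map_C_iff, Polynomial.ext_iff]
    simp only [Polynomial.coeff_map, Polynomial.coeff_zero, Ideal.Quotient.eq_zero_iff_mem]
  rw [key] at h ⊢
  rw [Polynomial.map_mul] at h
  exact ((hp.map (Ideal.Quotient.mk I)).mul_right_eq_zero_iff).1 h

lemma isWeaklyRegular_ringEquiv {A : Type u} {B : Type v} [CommRing A] [CommRing B]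
    (e : A ≃+* B) (L : List A) : IsWeaklyRegular A L ↔ IsWeaklyRegular B (L.map e) := by
  refine AddEquiv.isWeaklyRegular_congr (e := e.toAddEquiv) ?_
  rw [List.forall₂_map_right_iff, List.forall₂_same]
  intro r _ x
  simp

/-- regularity of one more element, in terms of ideal membership -/
lemma isWeaklyRegular_concat {A : Type u} [CommRing A] (L : List A) (f : A) :
    IsWeaklyRegular A (L ++ [f]) ↔
      IsWeaklyRegular A L ∧ ∀ g, f * g ∈ Ideal.ofList L → g ∈ Ideal.ofList L := by
  rw [isWeaklyRegular_append_iff, isWeaklyRegular_singleton_iff]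
  refine and_congr_right fun _ => ?_
  have hI : (Ideal.ofList L • ⊤ : Submodule A A) = Ideal.ofList L := by
    simp
  constructor
  · intro h g hg
    have := h (a₁ := Submodule.Quotient.mk g) (a₂ := 0) (by
      simp only [smul_zero]
      rw [← Submodule.Quotient.mk_smul, Submodule.Quotient.mk_eq_zero, hI]
      simpa using hg)
    rw [Submodule.Quotient.mk_eq_zero, hI] at this
    exact this
  · intro h
    refine isSMulRegular_iff_right_eq_zero_of_smul.2 ?_
    intro x hx
    obtain ⟨g, rfl⟩ := Submodule.Quotient.mk_surjective _ x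
    rw [← Submodule.Quotient.mk_smul, Submodule.Quotient.mk_eq_zero, hI] at hx
    rw [Submodule.Quotient.mk_eq_zero, hI]
    exact h g (by simpa using hx)

/-- Existence of a long regular sequence of univariate monic polynomials in the variables. -/
lemma exists_list_monic (m : ℕ) {R : Type u} [CommRing R] (p : Fin m → Polynomial R)
    (hp : ∀ i, (p i).Monic) :
    ∃ L : List (MvPolynomial (Fin m) R), L.length = m ∧
      (∀ f ∈ L, ∃ i, f = Polynomial.aeval (X i) (p i)) ∧
      IsWeaklyRegular (MvPolynomial (Fin m) R) L := by
  induction m with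
  | zero => exact ⟨[], rfl, by simp, IsWeaklyRegular.nil _ _⟩
  | succ m ih =>
    obtain ⟨L, hlen, hL, hreg⟩ := ih (fun i => p i.succ) (fun i => hp _)
    let e := (finSuccEquiv R m).toRingEquiv
    let A := MvPolynomial (Fin m) R
    let f0 : Polynomial A := (p 0).map C
    refine ⟨(L.map Polynomial.C ++ [f0]).map e.symm, by simp [hlen], ?_, ?_⟩
    · intro f hf
      rw [List.mem_map] at hf
      obtain ⟨g, hg, rfl⟩ := hf
      rw [List.mem_append, List.mem_map, List.mem_singleton] at hg
      rcases hg with ⟨h, hh, rfl⟩ | rfl
      · obtain ⟨i, rfl⟩ := hL h hh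
        refine ⟨i.succ, ?_⟩
        rw [RingEquiv.symm_apply_eq]
        change _ = finSuccEquiv R m _
        have h1 : (Polynomial.C : A →+* Polynomial A) (Polynomial.aeval (X i) (p i.succ)) =
          (IsScalarTower.toAlgHom R A (Polynomial A)) (Polynomial.aeval (X i) (p i.succ)) := rfl
        rw [h1, ← Polynomial.aeval_algHom_apply]
        have h2 := Polynomial.aeval_algHom_apply (finSuccEquiv R m) (X i.succ) (p i.succ)
        rw [finSuccEquiv_X_succ] at h2
        exact h2
      · refine ⟨0, ?_⟩
        rw [RingEquiv.symm_apply_eq]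
        change _ = finSuccEquiv R m _
        have h2 := Polynomial.aeval_algHom_apply (finSuccEquiv R m) (X 0) (p 0)
        rw [finSuccEquiv_X_zero] at h2
        rw [← h2]
        simp only [f0]
        rw [Polynomial.aeval_def, Polynomial.map, Polynomial.eval₂_eq_sum, Polynomial.eval₂_eq_sum]
        rfl
    · rw [← isWeaklyRegular_ringEquiv e.symm, isWeaklyRegular_concat]
      constructor
      · exact hreg.of_flat
      · intro g hg
        have h1 : Ideal.ofList (L.map (Polynomial.C : A →+* Polynomial A)) =
          (Ideal.ofList L).map (Polynomial.C : A →+* Polynomial A) := by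
          rw [Ideal.map_ofList]
        rw [h1] at hg ⊢
        exact monic_regular_mod _ f0 ((hp 0).map _) g hg

end MonicRegular

end Pool.Agent.H.MP_0e620a_ag
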