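import Pool.Agent.H.MP_0e620a_ag.Reg

/-!
# Depth argument through Ext (Rees theorem in Mathlib)
-/

open RingTheory.Sequence CategoryTheory Abelian

namespace Pool.Agent.H.MP_0e620a_ag

universe u

section Ext

variable {R : Type u} [CommRing R]

lemma ext_quot (N M : ModuleCat.{u} R) (x : R) (hx : IsSMulRegular M x) (n : ℕ)
    (h : ∀ i ≤ n + 1, Subsingleton (Ext N M i)) :
    ∀ i ≤ n, Subsingleton (Ext N (ModuleCat.of R (QuotSMulTop x M)) i) := by
  intro i hi
  have zero1 := AddCommGrpCat.isZero_of_iff_subsingleton.mpr (h i (by omega))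
  have zero2 := AddCommGrpCat.isZero_of_iff_subsingleton.mpr (h (i + 1) (by omega))
  exact AddCommGrpCat.subsingleton_of_isZero <| ShortComplex.Exact.isZero_of_both_zeros
    ((Ext.covariant_sequence_exact₃' N hx.smulShortComplex_shortExact) i (i + 1) rfl)
    (zero1.eq_zero_of_src _) (zero2.eq_zero_of_tgt _)

lemma hom_quot_zero (N : ModuleCat.{u} R) (rs : List R) :
    ∀ (M : ModuleCat.{u} R), IsWeaklyRegular M rs →
    (∀ i ≤ rs.length, Subsingleton (Ext N M i)) →
    Subsingleton (N →ₗ[R] (M ⧸ (Ideal.ofList rs • ⊤ : Submodule R M))) := by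
  induction rs with
  | nil =>
    intro M _ h
    have h00 : Subsingleton (Ext N M 0) := h 0 (by simp)
    have h0 : Subsingleton (N →ₗ[R] M) :=
      (Ext.addEquiv₀.trans ModuleCat.homAddEquiv).symm.toEquiv.subsingleton
    have e : (M ⧸ (Ideal.ofList ([] : List R) • ⊤ : Submodule R M)) ≃ₗ[R] M :=
      Submodule.quotEquivOfEqBot _ (by rw [Ideal.ofList_nil, Submodule.bot_smul])
    exact (LinearEquiv.congrRight e).subsingleton
  | cons r rs ih =>
    intro M hM h
    rw [isWeaklyRegular_cons_iff] at hM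
    have h' := ext_quot N M r hM.1 rs.length (by simpa using h)
    have := ih (ModuleCat.of R (QuotSMulTop r M)) hM.2 h'
    exact (LinearEquiv.congrRight
      (Submodule.quotOfListConsSMulTopEquivQuotSMulTopInner M r rs)).subsingleton

/-- If a prime ideal `q` of a Noetherian ring contains a weakly regular sequence of length `m`,
then `q` is not an associated prime of `(rs)` for weakly regular sequences `rs` of
length `< m`. -/
lemma not_assoc_of_length_lt [IsNoetherianRing R] (q : Ideal R) (hq : q ≠ ⊤)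
    (Ps : List R) (hPs : IsWeaklyRegular R Ps) (hPq : ∀ f ∈ Ps, f ∈ q)
    (rs : List R) (hrs : IsWeaklyRegular R rs) (hlen : rs.length < Ps.length)
    (x : R) (hx : ∀ s ∈ q, s * x ∈ Ideal.ofList rs) : x ∈ Ideal.ofList rs := by
  have hreg : IsRegular R Ps := by
    refine ⟨hPs, ?_⟩
    intro h
    apply hq
    rw [eq_top_iff, h]
    simp only [smul_eq_mul, Ideal.mul_top]
    exact Ideal.span_le.2 fun f hf => hPq f hf
  have hext := ModuleCat.subsingleton_ext_of_exists_isRegular q
    (ModuleCat.of R (R ⧸ q)) (by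
      rw [Module.support_eq_zeroLocus]
      exact PrimeSpectrum.zeroLocus_anti_mono_ideal (by rw [Ideal.annihilator_quotient]))
    (ModuleCat.of R R) (by
      refine lt_top_iff_ne_top.2 ?_
      simpa using hq) Ps hPq hreg
  have hsub := hom_quot_zero (ModuleCat.of R (R ⧸ q)) rs (ModuleCat.of R R) hrs
    (fun i hi => hext i (by omega))
  have hI : (Ideal.ofList rs • ⊤ : Submodule R R) = Ideal.ofList rs := by simp
  let f : (R ⧸ q) →ₗ[R] (R ⧸ (Ideal.ofList rs • ⊤ : Submodule R R)) :=
    Submodule.liftQ q ((Submodule.mkQ (Ideal.ofList rs • ⊤ : Submodule R R)).comp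
      (LinearMap.toSpanSingleton R R x)) (by
        intro s hs
        rw [LinearMap.mem_ker, LinearMap.comp_apply, Submodule.mkQ_apply,
          Submodule.Quotient.mk_eq_zero, hI]
        simpa using hx s hs)
  have hf : f = 0 := Subsingleton.elim (α := (R ⧸ q) →ₗ[R] (R ⧸ (Ideal.ofList rs • ⊤ : Submodule R R))) f 0
  have h1 : f (Submodule.Quotient.mk 1) = 0 := by rw [hf]; rfl
  have h2 : f (Submodule.Quotient.mk 1) = Submodule.Quotient.mk x := by
    change Submodule.liftQ q _ _ (Submodule.Quotient.mk 1) = _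
    rw [Submodule.liftQ_apply, LinearMap.comp_apply, LinearMap.toSpanSingleton_apply, one_smul]
    rfl
  rw [h2, Submodule.Quotient.mk_eq_zero, hI] at h1
  exact h1

end Ext

end Pool.Agent.H.MP_0e620a_ag
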